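import Mathlib

/-!
# The volume of the Euclidean ball of radius `√(2 n)`
-/

set_option autoImplicit false

namespace H104.MC

open Finset MeasureTheory Matrix
open scoped ENNReal

variable {n : ℕ}

theorem ball_subset (hn : 0 < n) :
    {y : Fin n → ℝ | y ⬝ᵥ y ≤ 2 * n} ⊆
      {x : Fin n → ℝ | (∑ i, |x i| ^ (1 : ℝ)) ^ (1 / (1 : ℝ)) ≤ √2 * n} := by
  intro y hy
  have hy' : ∑ i, y i ^ 2 ≤ 2 * n := by
    have : y ⬝ᵥ y = ∑ i, y i ^ 2 := by
      unfold dotProduct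
      exact sum_congr rfl fun i _ => by ring
    rw [← this]
    exact hy
  show (∑ i, |y i| ^ (1 : ℝ)) ^ (1 / (1 : ℝ)) ≤ √2 * n
  have h1 : (∑ i, |y i| ^ (1 : ℝ)) ^ (1 / (1 : ℝ)) = ∑ i, |y i| := by
    rw [div_one, Real.rpow_one]
    exact sum_congr rfl fun i _ => Real.rpow_one _
  rw [h1]
  have h2 : (∑ i, |y i|) ^ 2 ≤ n * ∑ i, |y i| ^ 2 := by
    have := sq_sum_le_card_mul_sum_sq (s := (univ : Finset (Fin n))) (f := fun i => |y i|)
    rwa [card_univ, Fintype.card_fin] at this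
  have h3 : ∑ i, |y i| ^ 2 = ∑ i, y i ^ 2 := sum_congr rfl fun i _ => sq_abs _
  have h4 : (∑ i, |y i|) ^ 2 ≤ (√2 * n) ^ 2 := by
    rw [mul_pow, Real.sq_sqrt (by norm_num)]
    calc (∑ i, |y i|) ^ 2 ≤ n * ∑ i, |y i| ^ 2 := h2
      _ ≤ n * (2 * n) := by rw [h3]; exact mul_le_mul_of_nonneg_left hy' (by positivity)
      _ = 2 * (n : ℝ) ^ 2 := by ring
  exact (le_abs_self _).trans (abs_le_of_sq_le_sq h4 (by positivity))

theorem ball_volume (hn : 0 < n) :
    (volume {y : Fin n → ℝ | y ⬝ᵥ y ≤ 2 * n}).toReal ≤ (7.69 : ℝ) ^ n := by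
  have : Nonempty (Fin n) := ⟨⟨0, hn⟩⟩
  have h1 := measure_mono (μ := volume) (ball_subset hn)
  rw [MeasureTheory.volume_sum_rpow_le (Fin n) le_rfl (√2 * n), Fintype.card_fin] at h1
  have hG : Real.Gamma ((n : ℝ) / 1 + 1) = n.factorial := by
    rw [div_one, Real.Gamma_nat_eq_factorial]
  have hG1 : Real.Gamma (1 / 1 + 1) = 1 := by
    have : (1 : ℝ) / 1 + 1 = ((1 : ℕ) : ℝ) + 1 := by norm_num
    rw [this, Real.Gamma_nat_eq_factorial]
    simp
  rw [hG, hG1, mul_one] at h1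
  have h2 := ENNReal.toReal_mono (by
    refine ENNReal.mul_ne_top (ENNReal.pow_ne_top ENNReal.ofReal_ne_top) ENNReal.ofReal_ne_top) h1
  rw [ENNReal.toReal_mul, ENNReal.toReal_pow, ENNReal.toReal_ofReal (by positivity),
    ENNReal.toReal_ofReal (by positivity)] at h2
  refine h2.trans ?_
  have h3 := Real.pow_div_factorial_le_exp (n : ℝ) (by positivity) n
  have h4 : (√2 * n) ^ n * (2 ^ n / (n.factorial : ℝ)) = (2 * √2) ^ n * ((n : ℝ) ^ n / n.factorial) := by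
    rw [mul_pow, mul_pow]
    ring
  rw [h4]
  have h5 : Real.exp (n : ℝ) = Real.exp 1 ^ n := by
    rw [← Real.exp_nat_mul, mul_one]
  calc (2 * √2) ^ n * ((n : ℝ) ^ n / n.factorial) ≤ (2 * √2) ^ n * Real.exp 1 ^ n := by
        rw [← h5]
        exact mul_le_mul_of_nonneg_left h3 (by positivity)
    _ = (2 * √2 * Real.exp 1) ^ n := (mul_pow _ _ _).symm
    _ ≤ (7.69 : ℝ) ^ n := by
        refine pow_le_pow_left₀ (by positivity) ?_ n
        have h6 : √2 ≤ 1.41422 := by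
          rw [Real.sqrt_le_left (by norm_num)]
          norm_num
        have h7 := Real.exp_one_lt_d9
        nlinarith [Real.sqrt_nonneg 2, Real.exp_pos 1]

end H104.MC
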