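import Pool.Agent.H104.MC.Pack
import Pool.Agent.H104.MC.Ball
import Pool.Agent.H845R2.MP2
import Pool.Agent.Q123.VP.A

/-!
# Integer points of a convex body and of its Milman ellipsoid
-/

set_option autoImplicit false

namespace H104.MC

open Finset MeasureTheory Matrix Pool.Agent.Y806.DF Q123.VP
open scoped Pointwise ENNReal

variable {n : ℕ}

theorem sym_of_body {B : Set (Fin n → ℝ)} (hB : Body B) : Sym B where
  conv := hB.1
  comp := hB.2.1
  symm := hB.2.2.2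
  ne := hB.2.2.1.mono interior_subset

theorem Sym.inter {B D : Set (Fin n → ℝ)} (hB : Sym B) (hD : Sym D) : Sym (B ∩ D) where
  conv := hB.conv.inter hD.conv
  comp := hB.comp.inter_right hD.comp.isClosed
  symm := fun x hx => ⟨hB.symm x hx.1, hD.symm x hx.2⟩
  ne := ⟨0, hB.zero, hD.zero⟩

/-- the coordinates belonging to a Milman position -/
noncomputable def tr (S : Matrix (Fin n) (Fin n) ℝ) (hS : S.det ≠ 0) (hn : 0 < n) :
    (Fin n → ℝ) ≃ₗ[ℝ] (Fin n → ℝ) :=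
  (Matrix.toLinearEquiv' S (Matrix.invertibleOfIsUnitDet S (isUnit_iff_ne_zero.2 hS))).trans
    (LinearEquiv.smulOfNeZero ℝ (Fin n → ℝ) (√(2 * n))⁻¹
      (inv_ne_zero (Real.sqrt_ne_zero'.2 (by positivity))))

theorem tr_apply (S : Matrix (Fin n) (Fin n) ℝ) (hS : S.det ≠ 0) (hn : 0 < n) (x : Fin n → ℝ) :
    tr S hS hn x = (√(2 * n))⁻¹ • S.mulVec x := rfl

theorem mem_ell_tr (S : Matrix (Fin n) (Fin n) ℝ) (hS : S.det ≠ 0) (hn : 0 < n) (x : Fin n → ℝ) :
    x ∈ ell (tr S hS hn) ↔ S.mulVec x ⬝ᵥ S.mulVec x ≤ 2 * n := by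
  have hn0 : (0 : ℝ) < 2 * n := by positivity
  have h1 : form (tr S hS hn) x x = (2 * n : ℝ)⁻¹ * (S.mulVec x ⬝ᵥ S.mulVec x) := by
    unfold form dotProduct
    rw [mul_sum]
    refine sum_congr rfl fun k _ => ?_
    rw [tr_apply, Pi.smul_apply, smul_eq_mul]
    have h2 : (√(2 * (n : ℝ)))⁻¹ * (√(2 * (n : ℝ)))⁻¹ = (2 * (n : ℝ))⁻¹ := by
      rw [← mul_inv, Real.mul_self_sqrt hn0.le]
    calc (√(2 * (n : ℝ)))⁻¹ * S.mulVec x k * ((√(2 * (n : ℝ)))⁻¹ * S.mulVec x k)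
        = ((√(2 * (n : ℝ)))⁻¹ * (√(2 * (n : ℝ)))⁻¹) * (S.mulVec x k * S.mulVec x k) := by ring
      _ = _ := by rw [h2]
  show form (tr S hS hn) x x ≤ 1 ↔ _
  rw [h1, inv_mul_le_iff₀ hn0, mul_one]

theorem milman_pos {B : Set (Fin n → ℝ)} (hB : Body B) (hn : 0 < n) :
    ∃ T : (Fin n → ℝ) ≃ₗ[ℝ] (Fin n → ℝ),
      0 < (volume (B ∩ ell T)).toReal ∧
      (volume B).toReal ≤ (2 * 5.44 ^ n) * (volume (B ∩ ell T)).toReal ∧
      (volume (ell T)).toReal ≤ (2 * 47.6 ^ n) * (volume (B ∩ ell T)).toReal := by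
  have hCB : Pool.Agent.H845R2.CB B := ⟨hB.2.1, hB.1, hB.2.2.2, hB.2.2.1⟩
  obtain ⟨S, hS, h1, h2⟩ := hCB.milman_position (by rw [Fintype.card_fin]; exact hn)
  rw [Fintype.card_fin] at h1 h2
  have himg : ∀ A : Set (Fin n → ℝ), (volume (S.mulVec '' A)).toReal = |S.det| * (volume A).toReal := by
    intro A
    have := Measure.addHaar_image_linearMap (volume : Measure (Fin n → ℝ)) (Matrix.toLin' S) A
    rw [LinearMap.det_toLin'] at this
    have h3 : volume (S.mulVec '' A) = ENNReal.ofReal |S.det| * volume A := this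
    rw [h3, ENNReal.toReal_mul, ENNReal.toReal_ofReal (abs_nonneg _)]
  have hdet : 0 < |S.det| := abs_pos.2 hS
  set T := tr S hS hn with hT
  have hQ : S.mulVec '' (ell T) = {y : Fin n → ℝ | y ⬝ᵥ y ≤ 2 * n} := by
    ext y
    constructor
    · rintro ⟨x, hx, rfl⟩
      exact (mem_ell_tr S hS hn x).1 hx
    · intro hy
      have hu : IsUnit S.det := isUnit_iff_ne_zero.2 hS
      refine ⟨S⁻¹.mulVec y, ?_, ?_⟩
      · rw [hT, mem_ell_tr, Matrix.mulVec_mulVec, Matrix.mul_nonsing_inv _ hu, Matrix.one_mulVec]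
        exact hy
      · rw [Matrix.mulVec_mulVec, Matrix.mul_nonsing_inv _ hu, Matrix.one_mulVec]
  have hI : S.mulVec '' (B ∩ ell T) = S.mulVec '' B ∩ {y : Fin n → ℝ | y ⬝ᵥ y ≤ 2 * n} := by
    ext y
    constructor
    · rintro ⟨x, hx, rfl⟩
      exact ⟨⟨x, hx.1, rfl⟩, (mem_ell_tr S hS hn x).1 hx.2⟩
    · rintro ⟨⟨x, hx, rfl⟩, hy⟩
      exact ⟨x, ⟨hx, (mem_ell_tr S hS hn x).2 hy⟩, rfl⟩
  rw [← hI, himg (B ∩ ell T)] at h2
  have hexp : Real.exp (n : ℝ) = Real.exp 1 ^ n := by rw [← Real.exp_nat_mul, mul_one]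
  have he : 2 * Real.exp (n : ℝ) * 2 ^ n ≤ 2 * 5.44 ^ n := by
    rw [hexp, mul_assoc, ← mul_pow]
    refine mul_le_mul_of_nonneg_left (pow_le_pow_left₀ (by positivity) ?_ n) (by norm_num)
    have := Real.exp_one_lt_d9
    linarith
  have hvB : (0.88 : ℝ) ^ n ≤ (volume (S.mulVec '' B)).toReal := by
    have h3 : ((0.88 : ℝ) ^ n) ^ 2 ≤ ((volume (S.mulVec '' B)).toReal) ^ 2 := by
      refine le_trans ?_ h1
      rw [← pow_mul, mul_comm, pow_mul]
      refine pow_le_pow_left₀ (by norm_num) ?_ n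
      have := Real.pi_gt_d2
      norm_num
      linarith
    exact (le_abs_self _).trans ((abs_le_of_sq_le_sq h3 ENNReal.toReal_nonneg))
  have hvI : 0 < (volume (B ∩ ell T)).toReal := by
    have h3 : (0 : ℝ) < (0.88 : ℝ) ^ n := by positivity
    have h4 : 0 < 2 * Real.exp (n : ℝ) * 2 ^ n * (|S.det| * (volume (B ∩ ell T)).toReal) :=
      lt_of_lt_of_le (lt_of_lt_of_le h3 hvB) h2
    by_contra hcon
    have h5 : (volume (B ∩ ell T)).toReal = 0 := le_antisymm (not_lt.1 hcon) ENNReal.toReal_nonneg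
    rw [h5, mul_zero, mul_zero] at h4
    exact lt_irrefl _ h4
  refine ⟨T, hvI, ?_, ?_⟩
  · rw [himg B] at h2
    have h3 : |S.det| * (volume B).toReal ≤ |S.det| * ((2 * 5.44 ^ n) * (volume (B ∩ ell T)).toReal) := by
      calc |S.det| * (volume B).toReal
          ≤ 2 * Real.exp (n : ℝ) * 2 ^ n * (|S.det| * (volume (B ∩ ell T)).toReal) := h2
        _ ≤ (2 * 5.44 ^ n) * (|S.det| * (volume (B ∩ ell T)).toReal) :=
            mul_le_mul_of_nonneg_right he (by positivity)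
        _ = _ := by ring
    exact le_of_mul_le_mul_left h3 hdet
  · have h3 := ball_volume hn
    rw [← hQ, himg (ell T)] at h3
    have h4 : (7.69 : ℝ) ^ n ≤ (2 * 47.6 ^ n) * (|S.det| * (volume (B ∩ ell T)).toReal) := by
      have h5 : (0.88 : ℝ) ^ n ≤ (2 * 5.44 ^ n) * (|S.det| * (volume (B ∩ ell T)).toReal) :=
        hvB.trans (h2.trans (mul_le_mul_of_nonneg_right he (by positivity)))
      have h6 : (8.75 : ℝ) ^ n * 0.88 ^ n ≤
          8.75 ^ n * ((2 * 5.44 ^ n) * (|S.det| * (volume (B ∩ ell T)).toReal)) :=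
        mul_le_mul_of_nonneg_left h5 (by positivity)
      calc (7.69 : ℝ) ^ n ≤ (8.75 * 0.88) ^ n := pow_le_pow_left₀ (by norm_num) (by norm_num) n
        _ = 8.75 ^ n * 0.88 ^ n := mul_pow _ _ _
        _ ≤ 8.75 ^ n * ((2 * 5.44 ^ n) * (|S.det| * (volume (B ∩ ell T)).toReal)) := h6
        _ = (2 * (8.75 * 5.44) ^ n) * (|S.det| * (volume (B ∩ ell T)).toReal) := by
            rw [mul_pow]; ring
        _ = _ := by norm_num
    have h7 : |S.det| * (volume (ell T)).toReal ≤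
        |S.det| * ((2 * 47.6 ^ n) * (volume (B ∩ ell T)).toReal) := by
      calc |S.det| * (volume (ell T)).toReal ≤ (7.69 : ℝ) ^ n := h3
        _ ≤ (2 * 47.6 ^ n) * (|S.det| * (volume (B ∩ ell T)).toReal) := h4
        _ = _ := by ring
    exact le_of_mul_le_mul_left h7 hdet

/-- **Integer points of a convex body and of an ellipsoid**: each of the two sets is covered by
`C ^ n` translates of the other one. -/
theorem milman_lat {B : Set (Fin n → ℝ)} (hB : Body B) :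
    ∃ (T : (Fin n → ℝ) ≃ₗ[ℝ] (Fin n → ℝ)) (F F' : Finset (Fin n → ℤ)),
      (F.card : ℝ) ≤ 33 ^ n ∧ (F'.card : ℝ) ≤ 286 ^ n ∧
      (∀ v ∈ lat B, ∃ f ∈ F, ∃ w ∈ lat (ell T), v = f + w) ∧
      ∀ v ∈ lat (ell T), ∃ f ∈ F', ∃ w ∈ lat B, v = f + w := by
  rcases Nat.eq_zero_or_pos n with rfl | hn
  · refine ⟨LinearEquiv.refl ℝ _, {0}, {0}, by simp, by simp, ?_, ?_⟩
    · intro v _
      refine ⟨0, mem_singleton_self _, 0, ?_, Subsingleton.elim _ _⟩
      have : re (0 : Fin 0 → ℤ) = 0 := Subsingleton.elim _ _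
      show re (0 : Fin 0 → ℤ) ∈ ell (LinearEquiv.refl ℝ (Fin 0 → ℝ))
      rw [this]
      exact ell_zero _
    · intro v _
      refine ⟨0, mem_singleton_self _, 0, ?_, Subsingleton.elim _ _⟩
      have : re (0 : Fin 0 → ℤ) = 0 := Subsingleton.elim _ _
      show re (0 : Fin 0 → ℤ) ∈ B
      rw [this]
      exact (sym_of_body hB).zero
  · obtain ⟨T, hpos, h1, h2⟩ := milman_pos hB hn
    have hS := sym_of_body hB
    have hI := Sym.inter hS (ell_sym T)
    obtain ⟨F, hF, hc⟩ := cover_volume hS hI Set.inter_subset_left hpos h1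
    obtain ⟨F', hF', hc'⟩ := cover_volume (ell_sym T) hI Set.inter_subset_right hpos h2
    have htwo : (2 : ℝ) ≤ 2 ^ n := by
      calc (2 : ℝ) = 2 ^ 1 := (pow_one 2).symm
        _ ≤ 2 ^ n := pow_le_pow_right₀ (by norm_num) hn
    refine ⟨T, F, F', hF.trans ?_, hF'.trans ?_, ?_, ?_⟩
    · calc (3 : ℝ) ^ n * (2 * 5.44 ^ n) ≤ 3 ^ n * (2 ^ n * 5.44 ^ n) := by gcongr
        _ = (3 * (2 * 5.44)) ^ n := by rw [mul_pow, mul_pow]
        _ ≤ 33 ^ n := pow_le_pow_left₀ (by norm_num) (by norm_num) n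
    · calc (3 : ℝ) ^ n * (2 * 47.6 ^ n) ≤ 3 ^ n * (2 ^ n * 47.6 ^ n) := by gcongr
        _ = (3 * (2 * 47.6)) ^ n := by rw [mul_pow, mul_pow]
        _ ≤ 286 ^ n := pow_le_pow_left₀ (by norm_num) (by norm_num) n
    · intro v hv
      obtain ⟨f, hf, w, hw, e⟩ := hc v hv
      exact ⟨f, hf, w, hw.2, e⟩
    · intro v hv
      obtain ⟨f, hf, w, hw, e⟩ := hc' v hv
      exact ⟨f, hf, w, hw.1, e⟩

end H104.MC
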