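import Pool.Agent.H104.MC.Mil
import Pool.Agent.Q123.VP.E

/-!
# Properness comes for free: images of the integer points of a convex body
-/

set_option autoImplicit false

namespace H104.MC

open Finset Pool.Agent.Y806.DF Q123.VP
open scoped Pointwise

variable {n : ℕ} {Γ : Type*} [AddCommGroup Γ]

theorem pc_le_body {B : Set (Fin n → ℝ)} (hB : Body B) {T : (Fin n → ℝ) ≃ₗ[ℝ] (Fin n → ℝ)}
    {F' : Finset (Fin n → ℤ)} (hF' : (F'.card : ℝ) ≤ 286 ^ n)
    (hcov : ∀ v ∈ lat (ell T), ∃ f ∈ F', ∃ w ∈ lat B, v = f + w)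
    (ψ : (Fin n → ℤ) →+ Γ) (H : AddSubgroup Γ) [Finite H] :
    (pc T ψ H : ℝ) ≤ 286 ^ n * (img ψ H (lat B)).ncard := by
  have h1 := ncard_le_translates ψ H (lat_finite (sym_of_body hB).comp.isBounded) F' hcov
  have h2 : (pc T ψ H : ℝ) ≤ F'.card * (img ψ H (lat B)).ncard := by exact_mod_cast h1
  exact h2.trans (mul_le_mul_of_nonneg_right hF' (Nat.cast_nonneg _))

/-- **Properness for free, convex bodies.** -/
theorem conv_cover {B : Set (Fin n → ℝ)} (hB : Body B) (ψ : (Fin n → ℤ) →+ Γ) (H : AddSubgroup Γ)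
    [Finite H] {N : ℝ} (hN : (Nat.card H : ℝ) ≤ N) :
    ∃ (B' : Set (Fin n → ℝ)) (F : Finset Γ), Body B' ∧
      Set.InjOn (fun p : (Fin n → ℤ) × Γ => ψ p.1 + p.2) (lat B' ×ˢ (H : Set Γ)) ∧
      ((lat B').ncard : ℝ) * Nat.card H ≤ N ∧
      (F.card : ℝ) ≤ (2 * 10 ^ 8) ^ n * max 1 ((img ψ H (lat B)).ncard / N) ∧
      ∀ g ∈ img ψ H (lat B), ∃ f ∈ F, ∃ w ∈ lat B', ∃ h ∈ H, g = f + ψ w + h := by
  classical
  have hHpos : (0 : ℝ) < Nat.card H := by exact_mod_cast Nat.card_pos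
  have hNpos : 0 < N := lt_of_lt_of_le hHpos hN
  obtain ⟨T, F₀, F', hF₀, hF', hc₀, hc'⟩ := milman_lat hB
  obtain ⟨t, F, h1, h2, h3, h4, h5⟩ := ell_cover T ψ H hN
  obtain ⟨B', hB', hBl⟩ := fatten ((kcell_sym T ψ H).smul t)
  refine ⟨B', (F₀ ×ˢ F).image fun p => ψ p.1 + ψ p.2, hB', ?_, ?_, ?_, ?_⟩
  · rw [hBl]
    exact proper T ψ H h1.le h2
  · rw [hBl]
    exact h3
  · have h6 : ((((F₀ ×ˢ F).image fun p => ψ p.1 + ψ p.2).card : ℕ) : ℝ) ≤ F₀.card * F.card := by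
      have := card_image_le (s := F₀ ×ˢ F) (f := fun p => ψ p.1 + ψ p.2)
      rw [card_product] at this
      exact_mod_cast this
    have h7 := pc_le_body hB hF' hc' ψ H
    have h8 : max 1 (16 ^ n * (pc T ψ H : ℝ) / N) ≤ 4576 ^ n * max 1 ((img ψ H (lat B)).ncard / N) := by
      refine max_le ?_ ?_
      · have h9 : (1 : ℝ) ≤ 4576 ^ n := one_le_pow₀ (by norm_num)
        calc (1 : ℝ) = 1 * 1 := (one_mul 1).symm
          _ ≤ _ := mul_le_mul h9 (le_max_left _ _) zero_le_one (by positivity)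
      · calc 16 ^ n * (pc T ψ H : ℝ) / N
            ≤ 16 ^ n * (286 ^ n * (img ψ H (lat B)).ncard) / N := by gcongr
          _ = 4576 ^ n * ((img ψ H (lat B)).ncard / N) := by
            rw [← mul_assoc, ← mul_pow, mul_div_assoc]
            norm_num
          _ ≤ _ := mul_le_mul_of_nonneg_left (le_max_right _ _) (by positivity)
    calc ((((F₀ ×ˢ F).image fun p => ψ p.1 + ψ p.2).card : ℕ) : ℝ) ≤ F₀.card * F.card := h6
      _ ≤ 33 ^ n * (1024 ^ n * max 1 (16 ^ n * (pc T ψ H : ℝ) / N)) := by gcongr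
      _ ≤ 33 ^ n * (1024 ^ n * (4576 ^ n * max 1 ((img ψ H (lat B)).ncard / N))) := by gcongr
      _ = (33 * (1024 * 4576)) ^ n * max 1 ((img ψ H (lat B)).ncard / N) := by
        rw [mul_pow, mul_pow]
        ring
      _ ≤ (2 * 10 ^ 8) ^ n * max 1 ((img ψ H (lat B)).ncard / N) := by
        refine mul_le_mul_of_nonneg_right (pow_le_pow_left₀ (by norm_num) (by norm_num) n) ?_
        exact zero_le_one.trans (le_max_left _ _)
  · rintro g ⟨v, hv, k, hk, rfl⟩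
    obtain ⟨f₀, hf₀, w₀, hw₀, rfl⟩ := hc₀ v hv
    obtain ⟨f, hf, w, hw, h, hh, e⟩ := h5 (ψ w₀ + k) ⟨w₀, hw₀, k, hk, rfl⟩
    refine ⟨ψ f₀ + ψ f, mem_image.2 ⟨(f₀, f), mem_product.2 ⟨hf₀, hf⟩, rfl⟩, w, ?_, h, hh, ?_⟩
    · rw [hBl]
      exact hw
    · rw [map_add, add_assoc, e]
      abel

/-- **Q1 for sets commensurable with an improper convex coset progression.** -/
theorem conc_conv [DecidableEq Γ] {B : Set (Fin n → ℝ)} (hB : Body B) (ψ : (Fin n → ℤ) →+ Γ)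
    (H : AddSubgroup Γ) [Finite H] {K M : ℝ} {A : Finset Γ} (hA : A.Nonempty)
    (hK : ((A + A).card : ℝ) ≤ K * A.card) (hP : ((img ψ H (lat B)).ncard : ℝ) ≤ M * A.card) (g : Γ)
    (hmeet : (A.card : ℝ) ≤ M * ({a : Γ | a ∈ A ∧ a - g ∈ img ψ H (lat B)}.ncard : ℝ)) :
    Conc A (4685824 ^ n * M * K) := by
  classical
  have hM1 := one_le_M hA _ hmeet
  have hAr : (0 : ℝ) < A.card := by exact_mod_cast hA.card_pos
  obtain ⟨T, F₀, F', hF₀, hF', hc₀, hc'⟩ := milman_lat hB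
  have h1 : (pc T ψ H : ℝ) ≤ (286 ^ n * M) * A.card := by
    calc (pc T ψ H : ℝ) ≤ 286 ^ n * (img ψ H (lat B)).ncard := pc_le_body hB hF' hc' ψ H
      _ ≤ 286 ^ n * (M * A.card) := mul_le_mul_of_nonneg_left hP (by positivity)
      _ = _ := by ring
  set A₁ := A.filter fun a => a - g ∈ img ψ H (lat B) with hA₁
  have hA₁c : {a : Γ | a ∈ A ∧ a - g ∈ img ψ H (lat B)}.ncard = A₁.card := by
    rw [← Set.ncard_coe_finset, hA₁]
    congr 1
    ext a
    simp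
  rw [hA₁c] at hmeet
  have hA₁ne : A₁.Nonempty := by
    rw [← card_pos]
    by_contra h
    push Not at h
    have h0 : A₁.card = 0 := by omega
    rw [h0, Nat.cast_zero, mul_zero] at hmeet
    linarith
  obtain ⟨f, hf, hfc⟩ := pigeon F₀ A A₁ hA₁ne (fun f a => a - (g + ψ f) ∈ img ψ H (lat (ell T)))
    (filter_subset _ _) (by
      intro a ha
      obtain ⟨v, hv, k, hk, e⟩ := (mem_filter.1 ha).2
      obtain ⟨f, hf, w, hw, rfl⟩ := hc₀ v hv
      refine ⟨f, hf, w, hw, k, hk, ?_⟩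
      have h2 : a - (g + ψ f) = (a - g) - ψ f := by abel
      rw [h2, e, map_add]
      abel)
  have h2 : (A.card : ℝ) ≤ (286 ^ n * M) *
      ({a : Γ | a ∈ A ∧ a - (g + ψ f) ∈ img ψ H (lat (ell T))}.ncard : ℝ) := by
    have h3 : {a : Γ | a ∈ A ∧ a - (g + ψ f) ∈ img ψ H (lat (ell T))}.ncard =
        (A.filter fun a => a - (g + ψ f) ∈ img ψ H (lat (ell T))).card := by
      rw [← Set.ncard_coe_finset]
      congr 1
      ext a
      simp
    rw [h3]
    have h4 : (A₁.card : ℝ) ≤ F₀.card *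
        ((A.filter fun a => a - (g + ψ f) ∈ img ψ H (lat (ell T))).card : ℝ) := by exact_mod_cast hfc
    have h5 : (33 : ℝ) ^ n ≤ 286 ^ n := pow_le_pow_left₀ (by norm_num) (by norm_num) n
    calc (A.card : ℝ) ≤ M * A₁.card := hmeet
      _ ≤ M * (F₀.card * ((A.filter fun a => a - (g + ψ f) ∈ img ψ H (lat (ell T))).card : ℝ)) :=
          mul_le_mul_of_nonneg_left h4 (by linarith)
      _ ≤ M * (286 ^ n * ((A.filter fun a => a - (g + ψ f) ∈ img ψ H (lat (ell T))).card : ℝ)) := by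
          refine mul_le_mul_of_nonneg_left (mul_le_mul_of_nonneg_right (hF₀.trans h5)
            (Nat.cast_nonneg _)) (by linarith)
      _ = _ := by ring
  have h6 := conc_of T ψ H hA hK h1 (g + ψ f) h2
  have h7 : (16384 : ℝ) ^ n * (286 ^ n * M) * K = 4685824 ^ n * M * K := by
    rw [← mul_assoc, ← mul_pow]
    norm_num
  rwa [h7] at h6

end H104.MC
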