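import Pool.Agent.H104.MC.Quot
import Pool.Agent.Q123.VP.H

/-!
# Sets commensurable with arbitrary images of sets dense in their convex hull
-/

set_option autoImplicit false

namespace H104.MC

open Finset Pool.Agent.Y806.DF Q123.VP
open scoped Pointwise

variable {Γ : Type*} [AddCommGroup Γ]

theorem two_pow_bound {s r : ℕ} {K : ℝ} (hK : 1 ≤ 2 * K) (hr : (r : ℝ) ≤ 500 * Real.log (2 * K)) :
    ((2 : ℝ) ^ s) ^ r ≤ (2 * K) ^ (350 * s) := by
  have hl : 0 ≤ Real.log (2 * K) := Real.log_nonneg hK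
  have h1 : Real.log (((2 : ℝ) ^ s) ^ r) ≤ Real.log ((2 * K) ^ (350 * s)) := by
    rw [Real.log_pow, Real.log_pow, Real.log_pow]
    push_cast
    have h2 : Real.log 2 ≤ 0.7 := by
      have := Real.log_two_lt_d9
      linarith
    have h3 : 0 ≤ Real.log 2 := Real.log_nonneg (by norm_num)
    calc (r : ℝ) * (s * Real.log 2) ≤ (500 * Real.log (2 * K)) * (s * 0.7) := by
          refine mul_le_mul hr (mul_le_mul_of_nonneg_left h2 (Nat.cast_nonneg _)) (by positivity)
            (by positivity)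
      _ = _ := by ring
  exact (Real.log_le_log_iff (by positivity) (by positivity)).1 h1

theorem meet_eq [DecidableEq Γ] {n : ℕ} (A : Finset Γ) (S : Set (Fin n → ℤ)) (ψ : (Fin n → ℤ) →+ Γ)
    (H : AddSubgroup Γ) (g : Γ) [DecidablePred fun a => a - g ∈ img ψ H S] :
    {a : Γ | a ∈ A ∧ a - g ∈ img ψ H S}.ncard = (A.filter fun a => a - g ∈ img ψ H S).card := by
  rw [← Set.ncard_coe_finset]
  congr 1
  ext a
  simp

/-- **Dimension-free and volume-free.** `A` is commensurable with the image of a set `X` of integer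
points of a space of any dimension, dense in its convex hull; the image is measured by its number
of elements. -/
theorem vol_free [DecidableEq Γ] {K : ℝ} {A : Finset Γ} (hA : A.Nonempty)
    (hK : ((A + A).card : ℝ) ≤ K * A.card) {d : ℕ} {X : Finset (Fin d → ℤ)} (hX : X.Nonempty)
    (hXX : ((X + X).card : ℝ) ≤ K * X.card) (hull' : ((hull X).ncard : ℝ) ≤ K * X.card)
    (ψ : (Fin d → ℤ) →+ Γ) (H : AddSubgroup Γ) [Finite H]
    (hsize : ((img ψ H (X : Set (Fin d → ℤ))).ncard : ℝ) ≤ K * A.card) (g : Γ)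
    (hmeet : (A.card : ℝ) ≤ K * ({a : Γ | a ∈ A ∧ a - g ∈ img ψ H (X : Set (Fin d → ℤ))}.ncard : ℝ)) :
    Conc A ((2 * K) ^ 14000) := by
  classical
  have hAr : (0 : ℝ) < A.card := by exact_mod_cast hA.card_pos
  have hXr : (0 : ℝ) < X.card := by exact_mod_cast hX.card_pos
  have hK1 : 1 ≤ K := one_le_M hA _ hmeet
  have hK0 : 0 < K := by linarith
  have hbot : Nat.card (⊥ : AddSubgroup (Fin d → ℤ)) = 1 := by simp
  have hD : Data K X X (AddMonoidHom.id (Fin d → ℤ)) ⊥ 0 := by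
    refine ⟨hX, inferInstance, hXX, hull', ?_, ?_⟩
    · rw [hbot, Nat.cast_one, mul_one]
      nlinarith
    · have h1 : {a : Fin d → ℤ | a ∈ X ∧ ∃ x ∈ X, ∃ h ∈ (⊥ : AddSubgroup (Fin d → ℤ)),
          a = 0 + AddMonoidHom.id (Fin d → ℤ) x + h} = (X : Set (Fin d → ℤ)) := by
        ext a
        constructor
        · rintro ⟨ha, -⟩
          exact ha
        · intro ha
          exact ⟨ha, a, ha, 0, AddSubgroup.zero_mem _, by simp⟩
      rw [h1, Set.ncard_coe_finset]
      nlinarith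
  obtain ⟨r, B, θ, H', T, hr, hB, hH', hvol, hT, hcov⟩ := main hX hXX hD
  have hS := sym_of_body hB
  have hBf : (lat B).Finite := lat_finite hS.comp.isBounded
  have hcov' : ∀ x ∈ X, ∃ t ∈ T, ∃ v ∈ lat B, x = t + θ v := by
    intro x hx
    obtain ⟨t, ht, v, hv, h, hh, e⟩ := hcov x hx
    refine ⟨t, ht, v, hv, ?_⟩
    rw [e, finite_subgroup_eq_zero H' hh, add_zero]
  have hvol' : (lat B).ncard ≤ X.card := by
    have : 1 ≤ Nat.card H' := Nat.card_pos
    calc (lat B).ncard = (lat B).ncard * 1 := (mul_one _).symm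
      _ ≤ (lat B).ncard * Nat.card H' := Nat.mul_le_mul_left _ this
      _ ≤ X.card := hvol
  -- a translate which contains a large part of `X`
  obtain ⟨t₀, ht₀, hc₀⟩ := pigeon T X X hX (fun t x => ∃ v ∈ lat B, x = t + θ v) Subset.rfl hcov'
  set X₀ := X.filter fun x => ∃ v ∈ lat B, x = t₀ + θ v with hX₀
  have hX₀X : X₀ ⊆ X := filter_subset _ _
  have hT0 : (0 : ℝ) < T.card := by
    have : 0 < T.card := card_pos.2 ⟨t₀, ht₀⟩
    exact_mod_cast this
  have hT1 : (1 : ℝ) ≤ T.card := by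
    have : 0 < T.card := card_pos.2 ⟨t₀, ht₀⟩
    exact_mod_cast this
  have hc₀' : (X.card : ℝ) ≤ T.card * X₀.card := by exact_mod_cast hc₀
  have hX₀ne : X₀.Nonempty := by
    rw [← card_pos]
    by_contra h
    have h0 : X₀.card = 0 := by omega
    rw [h0, Nat.cast_zero, mul_zero] at hc₀'
    linarith
  set S : Finset (Fin d → ℤ) := hBf.toFinset.image θ with hSdef
  have h2f := hS.finite 2
  have hSX : ((S + X₀).card : ℝ) ≤ (4 ^ r * T.card) * X₀.card := by
    have h1 : S + X₀ ⊆ h2f.toFinset.image fun v => t₀ + θ v := by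
      intro z hz
      obtain ⟨s, hs, x, hx, rfl⟩ := mem_add.1 hz
      obtain ⟨v, hv, rfl⟩ := mem_image.1 hs
      obtain ⟨w, hw, rfl⟩ := (mem_filter.1 hx).2
      refine mem_image.2 ⟨v + w, ?_, ?_⟩
      · rw [Set.Finite.mem_toFinset]
        have hv' : v ∈ lat B := (Set.Finite.mem_toFinset _).1 hv
        have h := hS.add (s := 1) (t := 1) zero_le_one zero_le_one (v := v) (w := w)
          (by rw [one_smul]; exact hv') (by rw [one_smul]; exact hw)
        norm_num at h
        exact h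
      · rw [map_add]
        abel
    have h2 : (S + X₀).card ≤ num B 2 := by
      refine (card_le_card h1).trans (card_image_le.trans (le_of_eq ?_))
      exact (Set.ncard_eq_toFinset_card _ h2f).symm
    have h3 : num B 2 ≤ 4 ^ r * num B 1 := by
      have := num_double hS (t := 1) zero_le_one
      rwa [mul_one] at this
    have h4 : num B 1 = (lat B).ncard := by unfold num; rw [one_smul]
    have h5 : (S + X₀).card ≤ 4 ^ r * X.card := by
      rw [h4] at h3
      exact h2.trans (h3.trans (Nat.mul_le_mul_left _ hvol'))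
    calc ((S + X₀).card : ℝ) ≤ 4 ^ r * X.card := by exact_mod_cast h5
      _ ≤ 4 ^ r * (T.card * X₀.card) := mul_le_mul_of_nonneg_left hc₀' (by positivity)
      _ = _ := by ring
  obtain ⟨F₁, -, hF₁, hcov₁⟩ := ruzsa_covering_add hX₀ne hSX
  -- the number of elements of the progression
  have himg : img (ψ.comp θ) H (lat B) = img ψ H (S : Set (Fin d → ℤ)) := by
    ext γ
    constructor
    · rintro ⟨v, hv, h, hh, rfl⟩
      refine ⟨θ v, ?_, h, hh, rfl⟩
      rw [hSdef, mem_coe]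
      exact mem_image_of_mem _ ((Set.Finite.mem_toFinset _).2 hv)
    · rintro ⟨x, hx, h, hh, rfl⟩
      rw [hSdef, mem_coe] at hx
      obtain ⟨v, hv, rfl⟩ := mem_image.1 hx
      exact ⟨v, (Set.Finite.mem_toFinset _).1 hv, h, hh, rfl⟩
  have hcount : ((img (ψ.comp θ) H (lat B)).ncard : ℝ) ≤ (4 ^ r * T.card * K ^ 4) * A.card := by
    have h1 := ncard_le_translates ψ H (S := (S : Set (Fin d → ℤ)))
      (S' := ((X - X : Finset (Fin d → ℤ)) : Set (Fin d → ℤ))) (finite_toSet _) F₁ (by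
        intro x hx
        obtain ⟨f, hf, y, hy, rfl⟩ := mem_add.1 (hcov₁ (mem_coe.1 hx))
        exact ⟨f, hf, y, mem_coe.2 (sub_subset_sub hX₀X hX₀X hy), rfl⟩)
    rw [himg]
    have h2 := ncard_img_sub ψ H hX hXX
    calc ((img ψ H (S : Set (Fin d → ℤ))).ncard : ℝ)
        ≤ F₁.card * (img ψ H ((X - X : Finset (Fin d → ℤ)) : Set (Fin d → ℤ))).ncard := by
          exact_mod_cast h1
      _ ≤ (4 ^ r * T.card) * (K ^ 3 * (img ψ H (X : Set (Fin d → ℤ))).ncard) :=
          mul_le_mul hF₁ h2 (Nat.cast_nonneg _) (by positivity)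
      _ ≤ (4 ^ r * T.card) * (K ^ 3 * (K * A.card)) := by gcongr
      _ = _ := by ring
  -- a translate which contains a large part of `A`
  set A₁ := A.filter fun a => a - g ∈ img ψ H (X : Set (Fin d → ℤ)) with hA₁
  rw [meet_eq A (X : Set (Fin d → ℤ)) ψ H g] at hmeet
  have hA₁ne : A₁.Nonempty := by
    rw [← card_pos]
    by_contra h
    have h0 : A₁.card = 0 := by omega
    rw [h0, Nat.cast_zero, mul_zero] at hmeet
    linarith
  obtain ⟨t, ht, hc⟩ := pigeon T A A₁ hA₁ne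
    (fun t a => a - (g + ψ t) ∈ img (ψ.comp θ) H (lat B)) (filter_subset _ _) (by
      intro a ha
      obtain ⟨x, hx, h, hh, e⟩ := (mem_filter.1 ha).2
      obtain ⟨t, ht, v, hv, rfl⟩ := hcov' x hx
      refine ⟨t, ht, v, hv, h, hh, ?_⟩
      have h1 : a - (g + ψ t) = (a - g) - ψ t := by abel
      rw [h1, e, map_add, AddMonoidHom.comp_apply]
      abel)
  have hmeet' : (A.card : ℝ) ≤ (4 ^ r * T.card * K ^ 4) *
      ({a : Γ | a ∈ A ∧ a - (g + ψ t) ∈ img (ψ.comp θ) H (lat B)}.ncard : ℝ) := by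
    rw [meet_eq A (lat B) (ψ.comp θ) H (g + ψ t)]
    have h1 : (A₁.card : ℝ) ≤ T.card *
        ((A.filter fun a => a - (g + ψ t) ∈ img (ψ.comp θ) H (lat B)).card : ℝ) := by exact_mod_cast hc
    have h4 : (1 : ℝ) ≤ 4 ^ r := one_le_pow₀ (by norm_num)
    have h5 : K ≤ K ^ 4 := by
      calc K = K ^ 1 := (pow_one K).symm
        _ ≤ K ^ 4 := pow_le_pow_right₀ hK1 (by norm_num)
    calc (A.card : ℝ) ≤ K * A₁.card := hmeet
      _ ≤ K * (T.card * ((A.filter fun a => a - (g + ψ t) ∈ img (ψ.comp θ) H (lat B)).card : ℝ)) :=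
          mul_le_mul_of_nonneg_left h1 hK0.le
      _ = 1 * (T.card : ℝ) * K *
          ((A.filter fun a => a - (g + ψ t) ∈ img (ψ.comp θ) H (lat B)).card : ℝ) := by ring
      _ ≤ _ := by gcongr
  have hfin := conc_conv hB (ψ.comp θ) H hA hK hcount (g + ψ t) hmeet'
  refine hfin.mono (by positivity) ?_
  have h2K : (1 : ℝ) ≤ 2 * K := by linarith
  have h1 : (18743296 : ℝ) ^ r ≤ (2 * K) ^ 8750 := by
    calc (18743296 : ℝ) ^ r ≤ (2 ^ 25) ^ r := pow_le_pow_left₀ (by norm_num) (by norm_num) r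
      _ ≤ (2 * K) ^ (350 * 25) := two_pow_bound h2K hr
      _ = _ := by norm_num
  have h3 : (T.card : ℝ) ≤ (2 * K) ^ 5013 := by
    calc (T.card : ℝ) ≤ 5000 * K ^ 5000 := hT
      _ ≤ (2 * K) ^ 13 * (2 * K) ^ 5000 := by
        refine mul_le_mul ?_ (pow_le_pow_left₀ hK0.le (by linarith) _) (by positivity) (by positivity)
        calc (5000 : ℝ) ≤ 2 ^ 13 := by norm_num
          _ ≤ (2 * K) ^ 13 := pow_le_pow_left₀ (by norm_num) (by linarith) 13
      _ = _ := by rw [← pow_add]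
  calc (4685824 : ℝ) ^ r * (4 ^ r * T.card * K ^ 4) * K
      = (4685824 * 4) ^ r * T.card * K ^ 5 := by rw [mul_pow]; ring
    _ = 18743296 ^ r * T.card * K ^ 5 := by norm_num
    _ ≤ (2 * K) ^ 8750 * (2 * K) ^ 5013 * (2 * K) ^ 5 := by
        refine mul_le_mul (mul_le_mul h1 h3 (Nat.cast_nonneg _) (by positivity))
          (pow_le_pow_left₀ hK0.le (by linarith) 5) (by positivity) (by positivity)
    _ = (2 * K) ^ 13768 := by rw [← pow_add, ← pow_add]
    _ ≤ (2 * K) ^ 14000 := pow_le_pow_right₀ h2K (by norm_num)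

/-- **The conclusion of Q1 passes to homomorphic images.** -/
theorem hom_stable {G : Type*} [AddCommGroup G] [DecidableEq G] [DecidableEq Γ] (φ : G →+ Γ)
    {A : Finset G} (hA : A.Nonempty) {K L : ℝ} (hK : ((A + A).card : ℝ) ≤ K * A.card)
    (hL : Conc A L) : Conc (A.image φ) ((2 * L) ^ 20150 * K ^ 6) := by
  classical
  obtain ⟨r, B, θ, H', F, hr, hB, hH', hvol, hF, hcov⟩ := hL
  have hAr : (0 : ℝ) < A.card := by exact_mod_cast hA.card_pos
  have hBf : (lat B).Finite := lat_finite (sym_of_body hB).comp.isBounded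
  obtain ⟨f, hf, hc⟩ := pigeon F A A hA (fun f a => a - f ∈ img θ H' (lat B)) Subset.rfl (by
    intro a ha
    obtain ⟨f, hf, x, hx, h, hh, rfl⟩ := hcov a ha
    exact ⟨f, hf, x, hx, h, hh, by abel⟩)
  have hF1 : (1 : ℝ) ≤ F.card := by
    have : 0 < F.card := card_pos.2 ⟨f, hf⟩
    exact_mod_cast this
  have hsize : ((img θ H' (lat B)).ncard : ℝ) ≤ F.card * A.card := by
    have h1 : (img θ H' (lat B)).ncard ≤ (lat B).ncard * Nat.card H' := by
      have h2 : img θ H' (lat B) = (fun p : (Fin r → ℤ) × G => θ p.1 + p.2) '' (lat B ×ˢ (H' : Set G)) := by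
        ext g
        constructor
        · rintro ⟨x, hx, h, hh, rfl⟩
          exact ⟨(x, h), ⟨hx, hh⟩, rfl⟩
        · rintro ⟨⟨x, h⟩, ⟨hx, hh⟩, rfl⟩
          exact ⟨x, hx, h, hh, rfl⟩
      have hHf : (H' : Set G).Finite := Set.toFinite _
      rw [h2]
      refine (Set.ncard_image_le (hBf.prod hHf)).trans (le_of_eq ?_)
      rw [Set.ncard_prod]
      rfl
    have h3 : ((img θ H' (lat B)).ncard : ℝ) ≤ A.card := by exact_mod_cast h1.trans hvol
    nlinarith
  have hmeet : (A.card : ℝ) ≤ F.card * ({a : G | a ∈ A ∧ a - f ∈ img θ H' (lat B)}.ncard : ℝ) := by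
    rw [meet_eq A (lat B) θ H' f]
    exact_mod_cast hc
  have hfin := conc_image_conv φ hA hK hB θ H' hsize f hmeet
  have hK1 : 1 ≤ K := by
    have h1 : (A.card : ℝ) ≤ (A + A).card := by
      exact_mod_cast Finset.card_le_card_add_right hA
    nlinarith
  refine hfin.mono (by positivity) ?_
  have hlog : 0 ≤ Real.log (2 * L) := by
    have : (0 : ℝ) ≤ r := Nat.cast_nonneg r
    linarith
  have hpow : (1 : ℝ) ≤ 5000 * L ^ 5000 := hF1.trans hF
  have habs : (1 : ℝ) ≤ |2 * L| := by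
    by_contra hcon
    push Not at hcon
    rcases eq_or_ne L 0 with h0 | h0
    · rw [h0, zero_pow (by norm_num), mul_zero] at hpow
      linarith
    · have h1 : 0 < |2 * L| := abs_pos.2 (by simpa using h0)
      have h2 : Real.log |2 * L| < 0 := Real.log_neg h1 hcon
      rw [Real.log_abs] at h2
      linarith
  have h1 : (299892736 : ℝ) ^ r ≤ |2 * L| ^ 10150 := by
    have hr' : (r : ℝ) ≤ 500 * Real.log (2 * (|2 * L| / 2)) := by
      rw [mul_div_cancel₀ _ (two_ne_zero), Real.log_abs]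
      exact hr
    calc (299892736 : ℝ) ^ r ≤ (2 ^ 29) ^ r := pow_le_pow_left₀ (by norm_num) (by norm_num) r
      _ ≤ (2 * (|2 * L| / 2)) ^ (350 * 29) := two_pow_bound (by linarith) hr'
      _ = |2 * L| ^ 10150 := by rw [mul_div_cancel₀ _ (two_ne_zero)]
  have h2 : |2 * L| ^ 10150 = (2 * L) ^ 10150 := Even.pow_abs ⟨5075, by norm_num⟩ _
  have h3 : (F.card : ℝ) ≤ (2 * L) ^ 5000 := by
    calc (F.card : ℝ) ≤ 5000 * L ^ 5000 := hF
      _ ≤ 2 ^ 5000 * L ^ 5000 := by
        have h4 : (0 : ℝ) ≤ L ^ 5000 := by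
          exact Even.pow_nonneg ⟨2500, by norm_num⟩ _
        refine mul_le_mul_of_nonneg_right ?_ h4
        calc (5000 : ℝ) ≤ 2 ^ 13 := by norm_num
          _ ≤ 2 ^ 5000 := pow_le_pow_right₀ (by norm_num) (by norm_num)
      _ = _ := (mul_pow _ _ _).symm
  rw [h2] at h1
  have h6 : (F.card : ℝ) ^ 2 ≤ ((2 * L) ^ 5000) ^ 2 := pow_le_pow_left₀ (Nat.cast_nonneg _) h3 2
  calc (299892736 : ℝ) ^ r * (F.card : ℝ) ^ 2 * K ^ 6
      ≤ (2 * L) ^ 10150 * ((2 * L) ^ 5000) ^ 2 * K ^ 6 := by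
        refine mul_le_mul_of_nonneg_right (mul_le_mul h1 h6 (by positivity) ?_) (by positivity)
        exact le_trans (by positivity) h1
    _ = _ := by rw [← pow_mul, ← pow_add]

end H104.MC
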