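import Pool.Agent.H104.MC.Dim
import Pool.Agent.Y806.DF.D

/-!
# Neither the dimension nor the volume has to be bounded
-/

set_option autoImplicit false

namespace H104.MC

open Finset Pool.Agent.Y806.DF Q123.VP
open scoped Pointwise

universe u

/-- `X` is a nonempty finite set of integer points of a space of any dimension with doubling at
most `K` and dense in its convex hull, `H` is a finite subgroup, `ψ(X) + H` has at most `K |A|`
elements (nothing is assumed about injectivity), and at least `|A| / K` elements of `A` are in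
`g + ψ(X) + H`. -/
structure VData {Γ : Type*} [AddCommGroup Γ] [DecidableEq Γ] (K : ℝ) (A : Finset Γ) {d : ℕ}
    (X : Finset (Fin d → ℤ)) (ψ : (Fin d → ℤ) →+ Γ) (H : AddSubgroup Γ) (g : Γ) : Prop where
  ne : X.Nonempty
  fin : Finite H
  doubling : ((X + X).card : ℝ) ≤ K * X.card
  dense : ((hull X).ncard : ℝ) ≤ K * X.card
  size : ((img ψ H (X : Set (Fin d → ℤ))).ncard : ℝ) ≤ K * A.card
  meet : (A.card : ℝ) ≤ K * ({a : Γ | a ∈ A ∧ a - g ∈ img ψ H (X : Set (Fin d → ℤ))}.ncard : ℝ)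

/-- The form without dimension and without volume. -/
def VolFree : Prop :=
  ∃ C : ℝ, ∀ (Γ : Type u) [AddCommGroup Γ] [DecidableEq Γ] (K : ℝ) (A : Finset Γ), A.Nonempty →
    ((A + A).card : ℝ) ≤ K * A.card →
    ∃ (d : ℕ) (X : Finset (Fin d → ℤ)) (ψ : (Fin d → ℤ) →+ Γ) (H : AddSubgroup Γ) (g : Γ),
      VData (C * K ^ C) A X ψ H g

theorem VData.mono {Γ : Type*} [AddCommGroup Γ] [DecidableEq Γ] {K K' : ℝ} {A : Finset Γ} {d : ℕ}
    {X : Finset (Fin d → ℤ)} {ψ : (Fin d → ℤ) →+ Γ} {H : AddSubgroup Γ} {g : Γ}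
    (h : VData K A X ψ H g) (hK : K ≤ K') : VData K' A X ψ H g where
  ne := h.ne
  fin := h.fin
  doubling := h.doubling.trans (mul_le_mul_of_nonneg_right hK (Nat.cast_nonneg _))
  dense := h.dense.trans (mul_le_mul_of_nonneg_right hK (Nat.cast_nonneg _))
  size := h.size.trans (mul_le_mul_of_nonneg_right hK (Nat.cast_nonneg _))
  meet := h.meet.trans (mul_le_mul_of_nonneg_right hK (Nat.cast_nonneg _))

theorem img_ncard_le {Γ : Type*} [AddCommGroup Γ] {d : ℕ} (X : Finset (Fin d → ℤ))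
    (ψ : (Fin d → ℤ) →+ Γ) (H : AddSubgroup Γ) [Finite H] :
    (img ψ H (X : Set (Fin d → ℤ))).ncard ≤ X.card * Nat.card H := by
  have h2 : img ψ H (X : Set (Fin d → ℤ)) =
      (fun p : (Fin d → ℤ) × Γ => ψ p.1 + p.2) '' ((X : Set (Fin d → ℤ)) ×ˢ (H : Set Γ)) := by
    ext g
    constructor
    · rintro ⟨x, hx, h, hh, rfl⟩
      exact ⟨(x, h), ⟨hx, hh⟩, rfl⟩
    · rintro ⟨⟨x, h⟩, ⟨hx, hh⟩, rfl⟩
      exact ⟨x, hx, h, hh, rfl⟩
  have hHf : (H : Set Γ).Finite := Set.toFinite _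
  rw [h2]
  refine (Set.ncard_image_le ((finite_toSet X).prod hHf)).trans (le_of_eq ?_)
  rw [Set.ncard_prod, Set.ncard_coe_finset]
  rfl

theorem vdata_of_data {Γ : Type*} [AddCommGroup Γ] [DecidableEq Γ] {K : ℝ} {A : Finset Γ} {d : ℕ}
    {X : Finset (Fin d → ℤ)} {ψ : (Fin d → ℤ) →+ Γ} {H : AddSubgroup Γ} {g : Γ}
    (h : Data K A X ψ H g) : VData K A X ψ H g := by
  have hfin := h.fin
  refine ⟨h.ne, h.fin, h.doubling, h.dense, ?_, ?_⟩
  · have h1 : ((img ψ H (X : Set (Fin d → ℤ))).ncard : ℝ) ≤ X.card * Nat.card H := by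
      exact_mod_cast img_ncard_le X ψ H
    exact h1.trans h.size
  · have h1 : {a : Γ | a ∈ A ∧ a - g ∈ img ψ H (X : Set (Fin d → ℤ))} =
        {a : Γ | a ∈ A ∧ ∃ x ∈ X, ∃ h ∈ H, a = g + ψ x + h} := by
      ext a
      constructor
      · rintro ⟨ha, x, hx, k, hk, e⟩
        refine ⟨ha, x, hx, k, hk, ?_⟩
        have : a = g + (a - g) := by abel
        rw [this, e]
        abel
      · rintro ⟨ha, x, hx, k, hk, e⟩
        refine ⟨ha, x, hx, k, hk, ?_⟩
        rw [e]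
        abel
    rw [h1]
    exact h.meet

theorem pfr_iff_volFree : PFR.{u} ↔ VolFree.{u} := by
  constructor
  · intro h
    obtain ⟨C, hC⟩ := imp_free h
    refine ⟨C, fun Γ _ _ K A hA hK => ?_⟩
    obtain ⟨d, X, ψ, H, g, hD⟩ := hC Γ K A hA hK
    exact ⟨d, X, ψ, H, g, vdata_of_data hD⟩
  · rintro ⟨C, h⟩
    obtain ⟨n, hn1, hn, hCK⟩ := nat_const C
    have hn1r : (1 : ℝ) ≤ n := by exact_mod_cast hn1
    obtain ⟨N, hN⟩ : ∃ N : ℕ, N = 2 * n * 14000 := ⟨_, rfl⟩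
    obtain ⟨D, hD1, hD2⟩ : ∃ D : ℕ, ((500 * (1 + N) : ℕ) : ℝ) ≤ (D : ℝ) ∧
        ((5000 * 2 ^ (N * 5000) + N * 5000 : ℕ) : ℝ) ≤ (D : ℝ) :=
      ⟨max (500 * (1 + N)) (5000 * 2 ^ (N * 5000) + N * 5000), by exact_mod_cast le_max_left _ _,
        by exact_mod_cast le_max_right _ _⟩
    refine ⟨(D : ℝ), ?_⟩
    intro Γ _ _ K A hA hK
    have hK1 := one_le_K hA hK
    have hK0 : 0 < K := by linarith
    have h2K : 1 ≤ 2 * K := by linarith
    obtain ⟨d, X, ψ, H, g, hD⟩ := h Γ K A hA hK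
    have hD' := hD.mono (hCK K hK1)
    have hfin := hD.fin
    have hKK : K ≤ (n : ℝ) * K ^ n := by
      calc K = 1 * K ^ 1 := by rw [pow_one, one_mul]
        _ ≤ n * K ^ n := mul_le_mul hn1r (pow_le_pow_right₀ hK1 hn1) (by positivity) (by positivity)
    have hc := vol_free hA (hK.trans (mul_le_mul_of_nonneg_right hKK (Nat.cast_nonneg _))) hD'.ne
      hD'.doubling hD'.dense ψ H hD'.size g hD'.meet
    have h7 : 2 * ((n : ℝ) * K ^ n) ≤ (2 * K) ^ (2 * n) := by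
      have e1 : 2 * (n : ℝ) ≤ 2 ^ (2 * n) := by
        have : 2 * n < 2 ^ (2 * n) := Nat.lt_two_pow_self
        exact_mod_cast this.le
      have e2 : K ^ n ≤ K ^ (2 * n) := pow_le_pow_right₀ hK1 (by omega)
      calc 2 * ((n : ℝ) * K ^ n) = (2 * (n : ℝ)) * K ^ n := by ring
        _ ≤ 2 ^ (2 * n) * K ^ (2 * n) := mul_le_mul e1 e2 (by positivity) (by positivity)
        _ = (2 * K) ^ (2 * n) := (mul_pow _ _ _).symm
    have h8 : (2 * ((n : ℝ) * K ^ n)) ^ 14000 ≤ (2 * K) ^ N := by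
      calc (2 * ((n : ℝ) * K ^ n)) ^ 14000 ≤ ((2 * K) ^ (2 * n)) ^ 14000 :=
            pow_le_pow_left₀ (by positivity) h7 _
        _ = (2 * K) ^ N := by rw [← pow_mul, hN]
    obtain ⟨r, B, θ, H', T, h1, h2, h3, h4, h5, h6⟩ := hc.mono (by positivity) h8
    have hlog0 : 0 ≤ Real.log (2 * K) := Real.log_nonneg h2K
    refine ⟨r, B, θ, H', T, ?_, h2, h3, h4, ?_, h6⟩
    · have h9 : Real.log (2 * (2 * K) ^ N) ≤ (1 + N : ℕ) * Real.log (2 * K) := by
        rw [← Real.log_pow]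
        refine Real.log_le_log (by positivity) ?_
        rw [pow_add, pow_one]
        exact mul_le_mul_of_nonneg_right (by linarith) (by positivity)
      calc (r : ℝ) ≤ 500 * Real.log (2 * (2 * K) ^ N) := h1
        _ ≤ 500 * ((1 + N : ℕ) * Real.log (2 * K)) := mul_le_mul_of_nonneg_left h9 (by norm_num)
        _ = ((500 * (1 + N) : ℕ) : ℝ) * Real.log (2 * K) := by push_cast; ring
        _ ≤ (D : ℝ) * Real.log (2 * K) := mul_le_mul_of_nonneg_right hD1 hlog0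
    · have hD3 : ((5000 * 2 ^ (N * 5000) : ℕ) : ℝ) ≤ D := by
        refine le_trans ?_ hD2
        exact_mod_cast Nat.le_add_right _ _
      have hD4 : ((N * 5000 : ℕ) : ℝ) ≤ D := by
        refine le_trans ?_ hD2
        exact_mod_cast Nat.le_add_left _ _
      calc (T.card : ℝ) ≤ 5000 * ((2 * K) ^ N) ^ 5000 := h5
        _ = ((5000 * 2 ^ (N * 5000) : ℕ) : ℝ) * K ^ (N * 5000) := by
          rw [← pow_mul, mul_pow]
          push_cast
          ring
        _ ≤ (D : ℝ) * K ^ ((D : ℕ) : ℝ) :=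
          mul_le_mul hD3 (pow_le_rpow hK1 hD4) (by positivity) (Nat.cast_nonneg _)

end H104.MC
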