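import Pool.Agent.H104.MC.Cov
import Pool.Agent.Q123.VP.F

/-!
# Q1 for homomorphic images, convex bodies
-/

set_option autoImplicit false

namespace H104.MC

open Finset Pool.Agent.Y806.DF Q123.VP
open scoped Pointwise

variable {n : ℕ} {G Γ : Type*} [AddCommGroup G] [AddCommGroup Γ]

theorem two_cover {B : Set (Fin n → ℝ)} (hB : Sym B) : ∃ E : Finset (Fin n → ℤ),
    (E.card : ℝ) ≤ 64 ^ n ∧ ∀ x ∈ lat ((2 : ℝ) • B), ∃ f ∈ E, ∃ w ∈ lat B, x = f + w := by
  obtain ⟨E, h1, h2⟩ := cover_two hB (t := 1) one_pos le_rfl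
  refine ⟨E, ?_, ?_⟩
  · have h3 := num_double hB (t := 1 / 2) (by norm_num)
    rw [show (2 : ℝ) * (1 / 2) = 1 by norm_num] at h3
    have h4 : (0 : ℝ) < num B (1 / 2) := by exact_mod_cast num_pos hB _
    have h5 : (num B 1 : ℝ) ≤ 4 ^ n * num B (1 / 2) := by exact_mod_cast h3
    have h6 : (E.card : ℝ) * num B (1 / 2) ≤ 64 ^ n * num B (1 / 2) := by
      calc (E.card : ℝ) * num B (1 / 2) ≤ 16 ^ n * num B 1 := h1
        _ ≤ 16 ^ n * (4 ^ n * num B (1 / 2)) := mul_le_mul_of_nonneg_left h5 (by positivity)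
        _ = _ := by rw [← mul_assoc, ← mul_pow]; norm_num
    exact le_of_mul_le_mul_right h6 h4
  · intro x hx
    obtain ⟨f, hf, w, hw, e⟩ := h2 x hx
    rw [one_smul] at hw
    exact ⟨f, hf, w, hw, e⟩

/-- **Q1 for all homomorphic images** of a set commensurable with a progression. -/
theorem conc_image_conv [DecidableEq G] [DecidableEq Γ] (φ : G →+ Γ) {A : Finset G} (hA : A.Nonempty)
    {K M : ℝ} (hK : ((A + A).card : ℝ) ≤ K * A.card) {B : Set (Fin n → ℝ)} (hBody : Body B) (ψ : (Fin n → ℤ) →+ G)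
    (H : AddSubgroup G) [Finite H] (hP : ((img ψ H (lat B)).ncard : ℝ) ≤ M * A.card) (g : G)
    (hmeet : (A.card : ℝ) ≤ M * ({a : G | a ∈ A ∧ a - g ∈ img ψ H (lat B)}.ncard : ℝ)) :
    Conc (A.image φ) (299892736 ^ n * M ^ 2 * K ^ 6) := by
  classical
  have hS := sym_of_body hBody
  have hBf : (lat B).Finite := lat_finite hS.comp.isBounded
  have hAr : (0 : ℝ) < A.card := by exact_mod_cast hA.card_pos
  have hM1 := one_le_M hA _ hmeet
  have hK1 : 1 ≤ K := by
    have h1 : (A.card : ℝ) ≤ (A + A).card := by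
      exact_mod_cast Finset.card_le_card_add_right hA
    nlinarith
  obtain ⟨hsum, hdiff⟩ := card_image_add φ hA hK
  set A₀ := A.filter fun a => a - g ∈ img ψ H (lat B) with hA₀
  have hA₀c : {a : G | a ∈ A ∧ a - g ∈ img ψ H (lat B)}.ncard = A₀.card := by
    rw [← Set.ncard_coe_finset, hA₀]
    congr 1
    ext a
    simp
  rw [hA₀c] at hmeet
  have hA₀A : A₀ ⊆ A := filter_subset _ _
  have hA₀ne : A₀.Nonempty := by
    rw [← card_pos]
    by_contra h
    push Not at h
    have h0 : A₀.card = 0 := by omega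
    rw [h0, Nat.cast_zero, mul_zero] at hmeet
    linarith
  have hPf := img_finite ψ H (hBf)
  set P := hPf.toFinset with hPdef
  have hPc : P.card = (img ψ H (lat B)).ncard := (Set.ncard_eq_toFinset_card _ hPf).symm
  have hP2f := img_finite ψ H (hS.finite 2)
  set PP := hP2f.toFinset with hPPdef
  obtain ⟨E, hE, hEcov'⟩ := two_cover hS
  have hPPc : (PP.card : ℝ) ≤ 64 ^ n * P.card := by
    have h1 := ncard_le_translates ψ H (hBf) E hEcov'
    rw [Set.ncard_eq_toFinset_card _ hP2f, Set.ncard_eq_toFinset_card _ hPf] at h1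
    have h2 : ((hP2f.toFinset.card : ℕ) : ℝ) ≤ E.card * hPf.toFinset.card := by exact_mod_cast h1
    exact h2.trans (mul_le_mul_of_nonneg_right hE (Nat.cast_nonneg _))
  -- sums and differences of elements of the box
  have hadd : ∀ x ∈ lat B, ∀ y ∈ lat B, x + y ∈ lat ((2 : ℝ) • B) := by
    intro x hx y hy
    have h := hS.add (s := 1) (t := 1) zero_le_one zero_le_one (v := x) (w := y)
      (by rw [one_smul]; exact hx) (by rw [one_smul]; exact hy)
    norm_num at h
    exact h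
  have hsub : ∀ x ∈ lat B, ∀ y ∈ lat B, x - y ∈ lat ((2 : ℝ) • B) := by
    intro x hx y hy
    have h := hS.sub (s := 1) (t := 1) zero_le_one zero_le_one (v := x) (w := y)
      (by rw [one_smul]; exact hx) (by rw [one_smul]; exact hy)
    norm_num at h
    exact h
  -- the progression is covered by differences of `A`
  have hPA : ((P + A₀).card : ℝ) ≤ (64 ^ n * M ^ 2) * A₀.card := by
    have h1 : P + A₀ ⊆ PP.image fun p => p + g := by
      intro z hz
      obtain ⟨p, hp, a, ha, rfl⟩ := mem_add.1 hz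
      rw [hPdef, Set.Finite.mem_toFinset] at hp
      obtain ⟨x, hx, h, hh, rfl⟩ := hp
      obtain ⟨y, hy, k, hk, e⟩ := (mem_filter.1 ha).2
      refine mem_image.2 ⟨ψ (x + y) + (h + k), ?_, ?_⟩
      · rw [hPPdef, Set.Finite.mem_toFinset]
        exact ⟨x + y, hadd x hx y hy, h + k, H.add_mem hh hk, rfl⟩
      · have e' : a = ψ y + k + g := by rw [← e]; abel
        rw [e', map_add]
        abel
    have h2 : ((P + A₀).card : ℝ) ≤ PP.card := by
      exact_mod_cast (card_le_card h1).trans card_image_le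
    calc ((P + A₀).card : ℝ) ≤ PP.card := h2
      _ ≤ 64 ^ n * P.card := hPPc
      _ ≤ 64 ^ n * (M * A.card) := by
        rw [hPc]
        exact mul_le_mul_of_nonneg_left hP (by positivity)
      _ ≤ 64 ^ n * (M * (M * A₀.card)) := by gcongr
      _ = _ := by ring
  obtain ⟨F₁, -, hF₁, hcov₁⟩ := ruzsa_covering_add hA₀ne hPA
  have himg : (img (φ.comp ψ) (H.map φ) (lat B)).ncard = (P.image φ).card := by
    rw [← img_map, ← Set.ncard_coe_finset, coe_image, hPdef, Set.Finite.coe_toFinset]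
  have hfinH : Finite (H.map φ) := Set.Finite.to_subtype (by
    have : (H : Set G).Finite := Set.toFinite _
    exact this.image φ)
  have hP' : ((img (φ.comp ψ) (H.map φ) (lat B)).ncard : ℝ) ≤
      (64 ^ n * M ^ 2 * K ^ 3) * (A.image φ).card := by
    rw [himg]
    have h1 : P.image φ ⊆ F₁.image φ + (A - A).image φ := by
      rw [← image_add]
      refine image_subset_image (hcov₁.trans ?_)
      exact add_subset_add_left (sub_subset_sub hA₀A hA₀A)
    calc ((P.image φ).card : ℝ) ≤ (F₁.image φ + (A - A).image φ).card := by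
          exact_mod_cast card_le_card h1
      _ ≤ (F₁.image φ).card * ((A - A).image φ).card := by exact_mod_cast card_add_le
      _ ≤ (64 ^ n * M ^ 2) * (K ^ 3 * (A.image φ).card) := by
        refine mul_le_mul ?_ hdiff (Nat.cast_nonneg _) (by positivity)
        exact (show ((F₁.image φ).card : ℝ) ≤ F₁.card by exact_mod_cast card_image_le).trans hF₁
      _ = _ := by ring
  -- `A` is covered by translates of the progression
  have hAA : ((A + A₀).card : ℝ) ≤ (K * M) * A₀.card := by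
    calc ((A + A₀).card : ℝ) ≤ (A + A).card := by
          exact_mod_cast card_le_card (add_subset_add_left hA₀A)
      _ ≤ K * A.card := hK
      _ ≤ K * (M * A₀.card) := mul_le_mul_of_nonneg_left hmeet (by linarith)
      _ = _ := by ring
  obtain ⟨Y, -, hY, hcovY⟩ := ruzsa_covering_add hA₀ne hAA
  have hpig := pigeon (Y ×ˢ E) (A.image φ) (A.image φ) (hA.image φ)
    (fun p b => b - φ (p.1 + ψ p.2) ∈ img (φ.comp ψ) (H.map φ) (lat B)) Subset.rfl (by
      intro b hb
      obtain ⟨a, ha, rfl⟩ := mem_image.1 hb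
      obtain ⟨y, hy, z, hz, rfl⟩ := mem_add.1 (hcovY ha)
      obtain ⟨a₁, ha₁, a₂, ha₂, rfl⟩ := mem_sub.1 hz
      obtain ⟨x₁, hx₁, h₁, hh₁, e₁⟩ := (mem_filter.1 ha₁).2
      obtain ⟨x₂, hx₂, h₂, hh₂, e₂⟩ := (mem_filter.1 ha₂).2
      obtain ⟨f, hf, w, hw, e⟩ := hEcov' _ (hsub x₁ hx₁ x₂ hx₂)
      refine ⟨(y, f), mem_product.2 ⟨hy, hf⟩, ?_⟩
      rw [← img_map]
      refine ⟨ψ w + (h₁ - h₂), ⟨w, hw, h₁ - h₂, H.sub_mem hh₁ hh₂, rfl⟩, ?_⟩
      rw [← map_sub]
      congr 1
      have e3 : a₁ - a₂ = ψ (x₁ - x₂) + (h₁ - h₂) := by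
        have : a₁ - a₂ = (a₁ - g) - (a₂ - g) := by abel
        rw [this, e₁, e₂, map_sub]
        abel
      simp only
      rw [e3, e, map_add]
      abel)
  obtain ⟨⟨y, f⟩, hyf, hc⟩ := hpig
  have hYE : (((Y ×ˢ E).card : ℕ) : ℝ) ≤ 64 ^ n * M ^ 2 * K ^ 3 := by
    rw [card_product]
    push_cast
    calc (Y.card : ℝ) * E.card ≤ (K * M) * 64 ^ n := by
          exact mul_le_mul hY hE (Nat.cast_nonneg _) (by positivity)
      _ = 64 ^ n * (M * 1) * (K * 1 * 1) := by ring
      _ ≤ 64 ^ n * (M * M) * (K * K * K) := by gcongr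
      _ = _ := by ring
  have hmeet' : ((A.image φ).card : ℝ) ≤ (64 ^ n * M ^ 2 * K ^ 3) *
      ({b : Γ | b ∈ A.image φ ∧ b - φ (y + ψ f) ∈ img (φ.comp ψ) (H.map φ) (lat B)}.ncard : ℝ) := by
    have h1 : {b : Γ | b ∈ A.image φ ∧ b - φ (y + ψ f) ∈ img (φ.comp ψ) (H.map φ) (lat B)}.ncard =
        ((A.image φ).filter fun b => b - φ (y + ψ f) ∈ img (φ.comp ψ) (H.map φ) (lat B)).card := by
      rw [← Set.ncard_coe_finset]
      congr 1
      ext b
      simp
    rw [h1]
    have h2 : ((A.image φ).card : ℝ) ≤ ((Y ×ˢ E).card : ℕ) *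
        (((A.image φ).filter fun b => b - φ (y + ψ f) ∈ img (φ.comp ψ) (H.map φ) (lat B)).card : ℝ) := by
      exact_mod_cast hc
    exact h2.trans (mul_le_mul_of_nonneg_right hYE (Nat.cast_nonneg _))
  have hfinal := conc_conv hBody (φ.comp ψ) (H.map φ) (hA.image φ) hsum hP' _ hmeet'
  have e : (4685824 : ℝ) ^ n * (64 ^ n * M ^ 2 * K ^ 3) * K ^ 3 = 299892736 ^ n * M ^ 2 * K ^ 6 := by
    rw [show (299892736 : ℝ) = 4685824 * 64 by norm_num, mul_pow]
    ring
  rwa [e] at hfinal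

end H104.MC
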