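import Pool.Agent.H104.MC.Prod

/-!
# The integers
-/

set_option autoImplicit false

namespace H104.MC

open Finset Pool.Agent.Y806.DF Q123.VP
open scoped Pointwise

/-- The conclusion of Q1 for the set `A` of integers, with the parameter `L` in place of `K`. -/
def ConcZ (A : Finset ℤ) (L : ℝ) : Prop :=
  ∃ (d : ℕ) (B : Set (Fin d → ℝ)) (ψ : (Fin d → ℤ) →+ ℤ) (T : Finset ℤ),
    (d : ℝ) ≤ 500 * Real.log (2 * L) ∧ Body B ∧ (lat B).ncard ≤ A.card ∧
    (T.card : ℝ) ≤ 5000 * L ^ 5000 ∧ ∀ a ∈ A, ∃ t ∈ T, ∃ x ∈ lat B, a = t + ψ x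

/-- `A` has a large intersection with a translate of the image `ψ(X)` of a set `X` of integer points
of a space of any dimension, of doubling at most `K` and dense in its convex hull; `ψ(X)` has at
most `K |A|` elements (nothing is assumed about injectivity). -/
def WeakZ (A : Finset ℤ) (K : ℝ) : Prop :=
  ∃ (d : ℕ) (X : Finset (Fin d → ℤ)) (ψ : (Fin d → ℤ) →+ ℤ) (g : ℤ), X.Nonempty ∧
    ((X + X).card : ℝ) ≤ K * X.card ∧ ((hull X).ncard : ℝ) ≤ K * X.card ∧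
    ((X.image ψ).card : ℝ) ≤ K * A.card ∧
    (A.card : ℝ) ≤ K * ((A.filter fun a => ∃ x ∈ X, a = g + ψ x).card : ℝ)

theorem int_finite_subgroup (H : AddSubgroup ℤ) [Finite H] {x : ℤ} (hx : x ∈ H) : x = 0 := by
  have h1 : IsOfFinAddOrder (⟨x, hx⟩ : H) := isOfFinAddOrder_of_finite _
  obtain ⟨m, hm, h2⟩ := isOfFinAddOrder_iff_nsmul_eq_zero.1 h1
  have h3 : m • x = 0 := congrArg Subtype.val h2
  rw [smul_eq_zero] at h3
  rcases h3 with h3 | h3
  · omega
  · exact h3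

theorem concZ_of_conc {A : Finset ℤ} {L : ℝ} (h : Conc A L) : ConcZ A L := by
  obtain ⟨d, B, ψ, H, T, h1, h2, h3, h4, h5, h6⟩ := h
  refine ⟨d, B, ψ, T, h1, h2, ?_, h5, ?_⟩
  · have : 1 ≤ Nat.card H := Nat.card_pos
    calc (lat B).ncard = (lat B).ncard * 1 := (mul_one _).symm
      _ ≤ (lat B).ncard * Nat.card H := Nat.mul_le_mul_left _ this
      _ ≤ A.card := h4
  · intro a ha
    obtain ⟨t, ht, x, hx, k, hk, e⟩ := h6 a ha
    exact ⟨t, ht, x, hx, by rw [e, int_finite_subgroup H hk, add_zero]⟩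

theorem conc_of_concZ {A : Finset ℤ} {L : ℝ} (h : ConcZ A L) : Conc A L := by
  obtain ⟨d, B, ψ, T, h1, h2, h4, h5, h6⟩ := h
  refine ⟨d, B, ψ, ⊥, T, h1, h2, inferInstance, ?_, h5, ?_⟩
  · have : Nat.card (⊥ : AddSubgroup ℤ) = 1 := by simp
    rw [this, mul_one]
    exact h4
  · intro a ha
    obtain ⟨t, ht, x, hx, e⟩ := h6 a ha
    exact ⟨t, ht, x, hx, 0, AddSubgroup.zero_mem _, by rw [e, add_zero]⟩

theorem img_bot {d : ℕ} (X : Finset (Fin d → ℤ)) (ψ : (Fin d → ℤ) →+ ℤ) :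
    img ψ ⊥ (X : Set (Fin d → ℤ)) = ((X.image ψ : Finset ℤ) : Set ℤ) := by
  ext g
  rw [mem_coe, mem_image]
  constructor
  · rintro ⟨x, hx, h, hh, rfl⟩
    rw [AddSubgroup.mem_bot] at hh
    exact ⟨x, hx, by rw [hh, add_zero]⟩
  · rintro ⟨x, hx, rfl⟩
    exact ⟨x, hx, 0, AddSubgroup.zero_mem _, (add_zero _).symm⟩

theorem concZ_of_weakZ {A : Finset ℤ} (hA : A.Nonempty) {K : ℝ}
    (hK : ((A + A).card : ℝ) ≤ K * A.card) (h : WeakZ A K) : ConcZ A ((2 * K) ^ 14000) := by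
  classical
  obtain ⟨d, X, ψ, g, hX, h1, h2, h3, h4⟩ := h
  refine concZ_of_conc (vol_free hA hK hX h1 h2 ψ ⊥ ?_ g ?_)
  · rw [img_bot, Set.ncard_coe_finset]
    exact h3
  · rw [meet_eq]
    have e : (A.filter fun a => a - g ∈ img ψ ⊥ (X : Set (Fin d → ℤ))) =
        A.filter fun a => ∃ x ∈ X, a = g + ψ x := by
      refine filter_congr fun a _ => ?_
      rw [img_bot, mem_coe, mem_image]
      constructor
      · rintro ⟨x, hx, e⟩
        exact ⟨x, hx, by rw [e]; ring⟩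
      · rintro ⟨x, hx, e⟩
        exact ⟨x, hx, by rw [e]; ring⟩
    rw [e]
    convert h4

theorem weak_of_cover {A : Finset ℤ} (hA : A.Nonempty) {K : ℝ} (hK : 1 ≤ K) {d : ℕ}
    {B : Set (Fin d → ℝ)} (hB : Body B) (hd : (4 : ℝ) ^ d ≤ K) (ψ : (Fin d → ℤ) →+ ℤ)
    (hvol : (lat B).ncard ≤ A.card) {T : Finset ℤ} (hT : (T.card : ℝ) ≤ K)
    (hcov : ∀ a ∈ A, ∃ t ∈ T, ∃ x ∈ lat B, a = t + ψ x) : WeakZ A K := by
  classical
  have hsym := sym_of_body hB
  have hfin : (lat B).Finite := lat_finite hB.2.1.isBounded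
  obtain ⟨t, ht, ht2⟩ := pigeon T A A hA (fun t a => ∃ x ∈ hfin.toFinset, a = t + ψ x)
    Subset.rfl (by
      intro a ha
      obtain ⟨t, ht, x, hx, e⟩ := hcov a ha
      exact ⟨t, ht, x, (Set.Finite.mem_toFinset _).2 hx, e⟩)
  refine ⟨d, hfin.toFinset, ψ, t, ?_, ?_, ?_, ?_, ?_⟩
  · refine ⟨0, ?_⟩
    rw [Set.Finite.mem_toFinset]
    show re 0 ∈ B
    have : re (0 : Fin d → ℤ) = 0 := by funext i; simp [re]
    rw [this]
    exact hsym.zero
  · have h1 : (hfin.toFinset + hfin.toFinset).card ≤ num B 2 := by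
      rw [num, Set.ncard_eq_toFinset_card _ (hsym.finite 2)]
      refine Finset.card_le_card ?_
      intro x hx
      obtain ⟨a, ha, b, hb, rfl⟩ := Finset.mem_add.1 hx
      rw [Set.Finite.mem_toFinset] at ha hb ⊢
      have ha' : a ∈ lat ((1 : ℝ) • B) := by rw [one_smul]; exact ha
      have hb' : b ∈ lat ((1 : ℝ) • B) := by rw [one_smul]; exact hb
      have h2 := hsym.add (by norm_num) (by norm_num) ha' hb'
      norm_num at h2
      exact h2
    have h2 : num B 2 ≤ 4 ^ d * hfin.toFinset.card := by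
      have h3 := num_double hsym (t := 1) (by norm_num)
      rw [mul_one] at h3
      have h4 : num B 1 = hfin.toFinset.card := by
        rw [num, one_smul]
        exact Set.ncard_eq_toFinset_card _ hfin
      rwa [h4] at h3
    calc ((hfin.toFinset + hfin.toFinset).card : ℝ) ≤ ((4 ^ d * hfin.toFinset.card : ℕ) : ℝ) := by
          exact_mod_cast h1.trans h2
      _ = (4 : ℝ) ^ d * hfin.toFinset.card := by push_cast; rfl
      _ ≤ _ := mul_le_mul_of_nonneg_right hd (Nat.cast_nonneg _)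
  · have h1 : hull hfin.toFinset ⊆ (hfin.toFinset : Set (Fin d → ℤ)) := by
      intro v hv
      rw [Finset.mem_coe, Set.Finite.mem_toFinset]
      refine convexHull_min ?_ hsym.conv hv
      rintro _ ⟨x, hx, rfl⟩
      rw [Finset.mem_coe, Set.Finite.mem_toFinset] at hx
      exact hx
    have h2 := Set.ncard_le_ncard h1 (Finset.finite_toSet _)
    rw [Set.ncard_coe_finset] at h2
    calc ((hull hfin.toFinset).ncard : ℝ) ≤ 1 * hfin.toFinset.card := by rw [one_mul]; exact_mod_cast h2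
      _ ≤ _ := mul_le_mul_of_nonneg_right hK (Nat.cast_nonneg _)
  · have h1 : ((hfin.toFinset.image ψ).card : ℝ) ≤ 1 * A.card := by
      rw [one_mul]
      rw [Set.ncard_eq_toFinset_card _ hfin] at hvol
      exact_mod_cast card_image_le.trans hvol
    exact h1.trans (mul_le_mul_of_nonneg_right hK (Nat.cast_nonneg _))
  · have h1 : (A.card : ℝ) ≤ T.card *
        ((A.filter fun a => ∃ x ∈ hfin.toFinset, a = t + ψ x).card : ℝ) := by exact_mod_cast ht2
    refine h1.trans (mul_le_mul_of_nonneg_right hT (Nat.cast_nonneg _))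

theorem weakZ_of_concZ {A : Finset ℤ} (hA : A.Nonempty) {L : ℝ} (hL : 1 ≤ L) (h : ConcZ A L) :
    WeakZ A ((2 * L) ^ 5000) := by
  obtain ⟨d, B, ψ, T, h1, h2, h3, h4, h5⟩ := h
  have h2L : 1 ≤ 2 * L := by linarith
  refine weak_of_cover hA (one_le_pow₀ h2L) h2 ?_ ψ h3 ?_ h5
  · calc (4 : ℝ) ^ d = (2 ^ 2) ^ d := by norm_num
      _ ≤ (2 * L) ^ (350 * 2) := two_pow_bound h2L h1
      _ ≤ (2 * L) ^ 5000 := pow_le_pow_right₀ h2L (by norm_num)
  · refine h4.trans ?_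
    rw [mul_pow]
    refine mul_le_mul_of_nonneg_right ?_ (by positivity)
    calc (5000 : ℝ) ≤ 2 ^ 13 := by norm_num
      _ ≤ 2 ^ 5000 := pow_le_pow_right₀ (by norm_num) (by norm_num)

/-- Q1 for the integers. -/
def Q1Z : Prop :=
  ∃ C : ℝ, ∀ (K : ℝ) (A : Finset ℤ), 2 ≤ K → A.Nonempty → ((A + A).card : ℝ) ≤ K * A.card →
    ∃ (d : ℕ) (B : Set (Fin d → ℝ)) (ψ : (Fin d → ℤ) →+ ℤ) (T : Finset ℤ),
      (d : ℝ) ≤ C * Real.log K ∧ Body B ∧ (lat B).ncard ≤ A.card ∧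
      (T.card : ℝ) ≤ C * K ^ C ∧ ∀ a ∈ A, ∃ t ∈ T, ∃ x ∈ lat B, a = t + ψ x

theorem two_mul_le_sq {K : ℝ} (hK : 2 ≤ K) : 2 * K ≤ K ^ 2 := by nlinarith

theorem q1Z_iff : Q1Z ↔ ∃ C : ℝ, ∀ (K : ℝ) (A : Finset ℤ), 2 ≤ K → A.Nonempty →
    ((A + A).card : ℝ) ≤ K * A.card → WeakZ A (C * K ^ C) := by
  constructor
  · rintro ⟨C, h⟩
    obtain ⟨n, hn1, hn, hCK⟩ := nat_const C
    refine ⟨((2 * n : ℕ) : ℝ), fun K A hK2 hA hK => ?_⟩
    have hK1 : 1 ≤ K := by linarith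
    have hK0 : 0 < K := by linarith
    have hlog : 0 ≤ Real.log K := Real.log_nonneg hK1
    obtain ⟨d, B, ψ, T, h1, h2, h3, h4, h5⟩ := h K A hK2 hA hK
    have hn1r : (1 : ℝ) ≤ n := by exact_mod_cast hn1
    have hbig : K ^ (2 * n) ≤ ((2 * n : ℕ) : ℝ) * K ^ ((2 * n : ℕ) : ℝ) := by
      rw [Real.rpow_natCast]
      have h6 : (1 : ℝ) ≤ ((2 * n : ℕ) : ℝ) := by exact_mod_cast (by omega : 1 ≤ 2 * n)
      have h7 : 0 < K ^ (2 * n) := by positivity
      nlinarith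
    have hone : (1 : ℝ) ≤ K ^ (2 * n) := one_le_pow₀ hK1
    refine weak_of_cover hA (hone.trans hbig) h2 (le_trans ?_ hbig) ψ h3 (le_trans ?_ hbig) h5
    · have e1 : (d : ℝ) ≤ n * Real.log K := h1.trans (mul_le_mul_of_nonneg_right hn hlog)
      have e2 : Real.log 4 ≤ 2 := by
        rw [show (4 : ℝ) = 2 ^ 2 by norm_num, Real.log_pow]
        have := Real.log_two_lt_d9
        push_cast
        linarith
      have e3 : Real.log ((4 : ℝ) ^ d) ≤ Real.log (K ^ (2 * n)) := by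
        rw [Real.log_pow, Real.log_pow]
        calc (d : ℝ) * Real.log 4 ≤ d * 2 := mul_le_mul_of_nonneg_left e2 (Nat.cast_nonneg _)
          _ ≤ (n * Real.log K) * 2 := mul_le_mul_of_nonneg_right e1 (by norm_num)
          _ = ((2 * n : ℕ) : ℝ) * Real.log K := by push_cast; ring
      exact (Real.log_le_log_iff (by positivity) (by positivity)).1 e3
    · have e1 : (n : ℝ) ≤ K ^ n := by
        have : n < 2 ^ n := Nat.lt_two_pow_self
        calc (n : ℝ) ≤ 2 ^ n := by exact_mod_cast this.le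
          _ ≤ K ^ n := pow_le_pow_left₀ (by norm_num) hK2 n
      calc (T.card : ℝ) ≤ n * K ^ n := h4.trans (hCK K hK1)
        _ ≤ K ^ n * K ^ n := mul_le_mul_of_nonneg_right e1 (by positivity)
        _ = K ^ (2 * n) := by rw [← pow_add, two_mul]
  · rintro ⟨C, h⟩
    obtain ⟨n, hn1, hn, hCK⟩ := nat_const C
    obtain ⟨N, hN⟩ : ∃ N : ℕ, N = (1 + 2 * n) * 14000 := ⟨_, rfl⟩
    obtain ⟨D, hD1, hD2, hD3⟩ : ∃ D : ℕ, ((500 * (1 + N) : ℕ) : ℝ) ≤ (D : ℝ) ∧
        ((5000 : ℕ) : ℝ) ≤ (D : ℝ) ∧ ((N * 5000 : ℕ) : ℝ) ≤ (D : ℝ) :=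
      ⟨500 * (1 + N) + 5000 + N * 5000, by exact_mod_cast (by omega), by exact_mod_cast (by omega),
        by exact_mod_cast (by omega)⟩
    refine ⟨(D : ℝ), fun K A hK2 hA hK => ?_⟩
    have hK1 : 1 ≤ K := by linarith
    have hK0 : 0 < K := by linarith
    have hlog : 0 ≤ Real.log K := Real.log_nonneg hK1
    have hw := h K A hK2 hA hK
    have hle : C * K ^ C ≤ K ^ (2 * n) := by
      have e1 : (n : ℝ) ≤ K ^ n := by
        have : n < 2 ^ n := Nat.lt_two_pow_self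
        calc (n : ℝ) ≤ 2 ^ n := by exact_mod_cast this.le
          _ ≤ K ^ n := pow_le_pow_left₀ (by norm_num) hK2 n
      calc C * K ^ C ≤ n * K ^ n := hCK K hK1
        _ ≤ K ^ n * K ^ n := mul_le_mul_of_nonneg_right e1 (by positivity)
        _ = K ^ (2 * n) := by rw [← pow_add, two_mul]
    have hKL : K ≤ K ^ (2 * n) := by
      calc K = K ^ 1 := (pow_one K).symm
        _ ≤ K ^ (2 * n) := pow_le_pow_right₀ hK1 (by omega)
    have hw' : WeakZ A (K ^ (2 * n)) := by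
      obtain ⟨d, X, ψ, g, h1, h2, h3, h4, h5⟩ := hw
      exact ⟨d, X, ψ, g, h1, h2.trans (mul_le_mul_of_nonneg_right hle (Nat.cast_nonneg _)),
        h3.trans (mul_le_mul_of_nonneg_right hle (Nat.cast_nonneg _)),
        h4.trans (mul_le_mul_of_nonneg_right hle (Nat.cast_nonneg _)),
        h5.trans (mul_le_mul_of_nonneg_right hle (Nat.cast_nonneg _))⟩
    have hc := conc_of_concZ (concZ_of_weakZ hA
      (hK.trans (mul_le_mul_of_nonneg_right hKL (Nat.cast_nonneg _))) hw')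
    have h8 : (2 * K ^ (2 * n)) ^ 14000 ≤ K ^ N := by
      calc (2 * K ^ (2 * n)) ^ 14000 ≤ (K ^ 1 * K ^ (2 * n)) ^ 14000 := by
            refine pow_le_pow_left₀ (by positivity) ?_ _
            rw [pow_one]
            exact mul_le_mul_of_nonneg_right hK2 (by positivity)
        _ = K ^ N := by rw [← pow_add, ← pow_mul, hN]
    obtain ⟨d, B, ψ, T, h1, h2, h3, h4, h5⟩ := concZ_of_conc (hc.mono (by positivity) h8)
    refine ⟨d, B, ψ, T, ?_, h2, h3, ?_, h5⟩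
    · have h9 : Real.log (2 * K ^ N) ≤ (1 + N : ℕ) * Real.log K := by
        rw [← Real.log_pow]
        refine Real.log_le_log (by positivity) ?_
        rw [pow_add, pow_one]
        exact mul_le_mul_of_nonneg_right hK2 (by positivity)
      calc (d : ℝ) ≤ 500 * Real.log (2 * K ^ N) := h1
        _ ≤ 500 * ((1 + N : ℕ) * Real.log K) := mul_le_mul_of_nonneg_left h9 (by norm_num)
        _ = ((500 * (1 + N) : ℕ) : ℝ) * Real.log K := by push_cast; ring
        _ ≤ (D : ℝ) * Real.log K := mul_le_mul_of_nonneg_right hD1 hlog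
    · calc (T.card : ℝ) ≤ 5000 * (K ^ N) ^ 5000 := h4
        _ = ((5000 : ℕ) : ℝ) * K ^ (N * 5000) := by
          rw [← pow_mul]
          norm_num
        _ ≤ (D : ℝ) * K ^ ((D : ℕ) : ℝ) :=
          mul_le_mul hD2 (pow_le_rpow hK1 hD3) (by positivity) (Nat.cast_nonneg _)

/-- Sums of dilates. -/
theorem dilates {k : ℕ} (l : Fin k → ℤ) (A : Fin k → Finset ℤ) (hA : ∀ i, (A i).Nonempty)
    {K L : ℝ} (hL : 1 ≤ L) (hK : ∀ i, ((A i + A i).card : ℝ) ≤ K * (A i).card)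
    (h : ∀ i, ConcZ (A i) L) :
    ConcZ ((Fintype.piFinset A).image fun a => ∑ i, l i * a i)
      ((2 * (2 * L) ^ k) ^ 20150 * (K ^ k) ^ 6) := by
  have h1 := conc_sums (Γ := fun _ : Fin k => ℤ) (fun i => AddMonoidHom.mulLeft (l i)) A hA hL hK
    fun i => conc_of_concZ (h i)
  exact concZ_of_conc h1

end H104.MC
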