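import Pool.Agent.Y806.DF.A

/-!
# Covering the integer points of a convex set by few translates, by comparing volumes
-/

set_option autoImplicit false

namespace H104.MC

open Finset MeasureTheory Pool.Agent.Y806.DF
open scoped Pointwise ENNReal

variable {n : ℕ}

/-- A maximal separated subset. -/
theorem exists_separated (D : Set (Fin n → ℤ)) (h0 : (0 : Fin n → ℤ) ∈ D) (hs : ∀ x ∈ D, -x ∈ D)
    (S : Finset (Fin n → ℤ)) :
    ∃ F ⊆ S, (∀ x ∈ S, ∃ f ∈ F, x - f ∈ D) ∧ ∀ x ∈ F, ∀ y ∈ F, x ≠ y → x - y ∉ D := by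
  classical
  induction S using Finset.induction_on with
  | empty => exact ⟨∅, Subset.rfl, by simp, by simp⟩
  | insert a S ha ih =>
    obtain ⟨F, hF, hcov, hsep⟩ := ih
    by_cases h : ∃ f ∈ F, a - f ∈ D
    · refine ⟨F, hF.trans (subset_insert a S), ?_, hsep⟩
      intro x hx
      rcases mem_insert.1 hx with rfl | hx
      · exact h
      · exact hcov x hx
    · push Not at h
      refine ⟨insert a F, insert_subset_insert a hF, ?_, ?_⟩
      · intro x hx
        rcases mem_insert.1 hx with rfl | hx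
        · exact ⟨x, mem_insert_self _ _, by rw [sub_self]; exact h0⟩
        · obtain ⟨f, hf, hxf⟩ := hcov x hx
          exact ⟨f, mem_insert_of_mem hf, hxf⟩
      · intro x hx y hy hxy
        rcases mem_insert.1 hx with hxa | hx'
        · rcases mem_insert.1 hy with hya | hy'
          · exact absurd (hxa.trans hya.symm) hxy
          · rw [hxa]
            exact h y hy'
        · rcases mem_insert.1 hy with hya | hy'
          · intro hcon
            refine h x hx' ?_
            have := hs _ hcon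
            rwa [neg_sub, hya] at this
          · exact hsep x hx' y hy' hxy

/-- Separated points give disjoint translates of the half of the body. -/
theorem card_mul_volume_le {X D : Set (Fin n → ℝ)} (hX : Sym X) (hD : Sym D) (hDX : D ⊆ X)
    (F : Finset (Fin n → ℤ)) (hF : ∀ f ∈ F, re f ∈ X)
    (hsep : ∀ x ∈ F, ∀ y ∈ F, x ≠ y → re (x - y) ∉ D) :
    (F.card : ℝ) * (volume D).toReal ≤ 3 ^ n * (volume X).toReal := by
  have hfinD : volume D ≠ ⊤ := hD.comp.measure_lt_top.ne
  have hfinX : volume X ≠ ⊤ := hX.comp.measure_lt_top.ne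
  have hsm : ∀ (c : ℝ) (A : Set (Fin n → ℝ)), 0 ≤ c → volume (c • A) = ENNReal.ofReal (c ^ n) * volume A := by
    intro c A hc
    rw [Measure.addHaar_smul, Module.finrank_fin_fun, abs_of_nonneg (pow_nonneg hc n)]
  have hdis : (F : Set (Fin n → ℤ)).PairwiseDisjoint fun f => re f +ᵥ ((1 / 2 : ℝ) • D) := by
    intro x hx y hy hxy
    rw [Function.onFun, Set.disjoint_left]
    rintro z ⟨_, ⟨a, ha, rfl⟩, haz⟩ ⟨_, ⟨b, hb, rfl⟩, hbz⟩
    refine hsep x hx y hy hxy ?_
    have h1 : re x + (1 / 2 : ℝ) • a = re y + (1 / 2 : ℝ) • b := by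
      have h2 : re x +ᵥ ((1 / 2 : ℝ) • a) = re y +ᵥ ((1 / 2 : ℝ) • b) := haz.trans hbz.symm
      exact h2
    have h3 : re (x - y) = (1 / 2 : ℝ) • b + (1 / 2 : ℝ) • (-a) := by
      rw [re_sub, smul_neg]
      have h4 : re x = re y + (1 / 2 : ℝ) • b - (1 / 2 : ℝ) • a := by rw [← h1]; abel
      rw [h4]
      abel
    rw [h3]
    exact hD.conv hb (hD.symm a ha) (by norm_num) (by norm_num) (by norm_num)
  have hmeas : ∀ f ∈ F, MeasurableSet (re f +ᵥ ((1 / 2 : ℝ) • D)) := by
    intro f _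
    exact ((hD.smul _).comp.vadd (re f)).measurableSet
  have hsub : (⋃ f ∈ F, re f +ᵥ ((1 / 2 : ℝ) • D)) ⊆ (3 / 2 : ℝ) • X := by
    intro z hz
    simp only [Set.mem_iUnion] at hz
    obtain ⟨f, hf, _, ⟨a, ha, rfl⟩, rfl⟩ := hz
    have h1 : (3 / 2 : ℝ) • X = (1 : ℝ) • X + (1 / 2 : ℝ) • X := by
      rw [← hX.conv.add_smul (by norm_num) (by norm_num)]
      norm_num
    rw [h1]
    refine Set.add_mem_add ⟨re f, hF f hf, one_smul ℝ _⟩ ⟨a, hDX ha, rfl⟩
  have h1 := measure_mono (μ := volume) hsub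
  rw [measure_biUnion_finset hdis hmeas] at h1
  have h2 : ∀ f ∈ F, volume (re f +ᵥ ((1 / 2 : ℝ) • D)) = ENNReal.ofReal ((1 / 2) ^ n) * volume D := by
    intro f _
    rw [measure_vadd, hsm _ _ (by norm_num)]
  rw [sum_congr rfl h2, sum_const, nsmul_eq_mul, hsm _ _ (by norm_num)] at h1
  have h3 := ENNReal.toReal_mono (ENNReal.mul_ne_top ENNReal.ofReal_ne_top hfinX) h1
  rw [ENNReal.toReal_mul, ENNReal.toReal_mul, ENNReal.toReal_mul,
    ENNReal.toReal_ofReal (by positivity), ENNReal.toReal_ofReal (by positivity),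
    ENNReal.toReal_natCast] at h3
  have h4 : (F.card : ℝ) * (volume D).toReal = 2 ^ n * (F.card * ((1 / 2) ^ n * (volume D).toReal)) := by
    have : (2 : ℝ) ^ n * (1 / 2) ^ n = 1 := by rw [← mul_pow]; norm_num
    calc (F.card : ℝ) * (volume D).toReal = (2 ^ n * (1 / 2) ^ n) * (F.card * (volume D).toReal) := by
          rw [this, one_mul]
      _ = _ := by ring
  have h5 : (3 : ℝ) ^ n * (volume X).toReal = 2 ^ n * ((3 / 2) ^ n * (volume X).toReal) := by
    rw [← mul_assoc, ← mul_pow]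
    norm_num
  rw [h4, h5]
  exact mul_le_mul_of_nonneg_left h3 (by positivity)

/-- The integer points of `X` are covered by few translates of the integer points of `D`. -/
theorem cover_volume {X D : Set (Fin n → ℝ)} (hX : Sym X) (hD : Sym D) (hDX : D ⊆ X) {c : ℝ}
    (hpos : 0 < (volume D).toReal) (hc : (volume X).toReal ≤ c * (volume D).toReal) :
    ∃ F : Finset (Fin n → ℤ), (F.card : ℝ) ≤ 3 ^ n * c ∧
      ∀ v ∈ lat X, ∃ f ∈ F, ∃ w ∈ lat D, v = f + w := by
  have hfin : (lat X).Finite := lat_finite hX.comp.isBounded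
  have h0 : (0 : Fin n → ℤ) ∈ lat D := by
    show re 0 ∈ D
    have : re (0 : Fin n → ℤ) = 0 := by funext i; simp [re]
    rw [this]
    exact hD.zero
  have hs : ∀ x ∈ lat D, -x ∈ lat D := by
    intro x hx
    show re (-x) ∈ D
    rw [re_neg]
    exact hD.symm _ hx
  obtain ⟨F, hF, hcov, hsep⟩ := exists_separated (lat D) h0 hs hfin.toFinset
  refine ⟨F, ?_, ?_⟩
  · have h1 := card_mul_volume_le hX hD hDX F (fun f hf => by
      have h2 : f ∈ lat X := (Set.Finite.mem_toFinset _).1 (hF hf)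
      exact h2) hsep
    have h2 : (F.card : ℝ) * (volume D).toReal ≤ (3 ^ n * c) * (volume D).toReal := by
      calc (F.card : ℝ) * (volume D).toReal ≤ 3 ^ n * (volume X).toReal := h1
        _ ≤ 3 ^ n * (c * (volume D).toReal) := mul_le_mul_of_nonneg_left hc (by positivity)
        _ = _ := by ring
    exact le_of_mul_le_mul_right h2 hpos
  · intro v hv
    obtain ⟨f, hf, h⟩ := hcov v ((Set.Finite.mem_toFinset _).2 hv)
    exact ⟨f, hf, v - f, h, by abel⟩

end H104.MC
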