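import Pool.Agent.H104.MC.Eqv

/-!
# Products, and sums of homomorphic images
-/

set_option autoImplicit false

namespace H104.MC

open Finset Pool.Agent.Y806.DF Q123.VP
open scoped Pointwise

universe u v

variable {k : ℕ} {r : Fin k → ℕ}

/-- The coordinates of the factor `i`. -/
def part {R : Type*} (r : Fin k → ℕ) (i : Fin k) (x : Fin (∑ i, r i) → R) : Fin (r i) → R :=
  fun j => x (finSigmaFinEquiv ⟨i, j⟩)

/-- The point with given parts. -/
def glue {R : Type*} (r : Fin k → ℕ) (y : ∀ i, Fin (r i) → R) : Fin (∑ i, r i) → R :=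
  fun m => y (finSigmaFinEquiv.symm m).1 (finSigmaFinEquiv.symm m).2

theorem part_glue {R : Type*} (y : ∀ i, Fin (r i) → R) (i : Fin k) : part r i (glue r y) = y i := by
  funext j
  show y (finSigmaFinEquiv.symm (finSigmaFinEquiv ⟨i, j⟩)).1
    (finSigmaFinEquiv.symm (finSigmaFinEquiv ⟨i, j⟩)).2 = y i j
  rw [Equiv.symm_apply_apply]

theorem ext_parts {R : Type*} {x y : Fin (∑ i, r i) → R} (h : ∀ i, part r i x = part r i y) :
    x = y := by
  funext m
  obtain ⟨⟨i, j⟩, rfl⟩ := finSigmaFinEquiv.surjective m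
  exact congrFun (h i) j

/-- The product of the bodies. -/
def prodBody (r : Fin k → ℕ) (B : ∀ i, Set (Fin (r i) → ℝ)) : Set (Fin (∑ i, r i) → ℝ) :=
  {x | ∀ i, part r i x ∈ B i}

theorem continuous_part (i : Fin k) : Continuous (part (R := ℝ) r i) :=
  continuous_pi fun _ => continuous_apply _

theorem continuous_glue : Continuous (glue (R := ℝ) r) := by
  refine continuous_pi fun m => ?_
  exact (continuous_apply (finSigmaFinEquiv.symm m).2).comp (continuous_apply (finSigmaFinEquiv.symm m).1)

theorem prodBody_body {B : ∀ i, Set (Fin (r i) → ℝ)} (hB : ∀ i, Body (B i)) :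
    Body (prodBody r B) := by
  refine ⟨?_, ?_, ?_, ?_⟩
  · intro x hx y hy a b ha hb hab i
    exact (hB i).1 (hx i) (hy i) ha hb hab
  · have h1 : IsCompact (Set.pi Set.univ B) := isCompact_univ_pi fun i => (hB i).2.1
    have h2 : prodBody r B = glue r '' (Set.pi Set.univ B) := by
      ext x
      constructor
      · intro hx
        refine ⟨fun i => part r i x, fun i _ => hx i, ?_⟩
        exact ext_parts fun i => part_glue _ i
      · rintro ⟨y, hy, rfl⟩ i
        rw [part_glue]
        exact hy i (Set.mem_univ i)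
    rw [h2]
    exact h1.image continuous_glue
  · choose p hp using fun i => (hB i).2.2.1
    have h1 : IsOpen (⋂ i, part r i ⁻¹' interior (B i)) :=
      isOpen_iInter_of_finite fun i => isOpen_interior.preimage (continuous_part i)
    have h2 : (⋂ i, part r i ⁻¹' interior (B i)) ⊆ prodBody r B := by
      intro x hx i
      exact interior_subset (Set.mem_iInter.1 hx i)
    refine ⟨glue r p, interior_maximal h2 h1 ?_⟩
    refine Set.mem_iInter.2 fun i => ?_
    show part r i (glue r p) ∈ interior (B i)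
    rw [part_glue]
    exact hp i
  · intro x hx i
    exact (hB i).2.2.2 _ (hx i)

theorem lat_prodBody {B : ∀ i, Set (Fin (r i) → ℝ)} (hB : ∀ i, Body (B i)) :
    (lat (prodBody r B)).ncard ≤ ∏ i, (lat (B i)).ncard := by
  classical
  have hf : ∀ i, (lat (B i)).Finite := fun i => lat_finite (hB i).2.1.isBounded
  have h1 : (lat (prodBody r B)).ncard ≤
      (((Fintype.piFinset fun i => (hf i).toFinset : Finset (∀ i, Fin (r i) → ℤ))) :
        Set (∀ i, Fin (r i) → ℤ)).ncard := by
    refine Set.ncard_le_ncard_of_injOn (fun x i => part r i x) ?_ ?_ (finite_toSet _)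
    · intro x hx
      rw [mem_coe, Fintype.mem_piFinset]
      intro i
      rw [Set.Finite.mem_toFinset]
      exact hx i
    · intro x _ y _ hxy
      exact ext_parts fun i => congrFun hxy i
  rw [Set.ncard_coe_finset, Fintype.card_piFinset] at h1
  refine h1.trans (le_of_eq ?_)
  exact prod_congr rfl fun i _ => (Set.ncard_eq_toFinset_card _ (hf i)).symm

variable {Γ : Fin k → Type u} [∀ i, AddCommGroup (Γ i)]

/-- The product of the homomorphisms. -/
def prodHom (θ : ∀ i, (Fin (r i) → ℤ) →+ Γ i) : (Fin (∑ i, r i) → ℤ) →+ (∀ i, Γ i) where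
  toFun x := fun i => θ i (part r i x)
  map_zero' := by
    funext i
    exact map_zero (θ i)
  map_add' x y := by
    funext i
    exact map_add (θ i) _ _

theorem card_pi_subgroup (H : ∀ i, AddSubgroup (Γ i)) :
    Nat.card (AddSubgroup.pi Set.univ H) = ∏ i, Nat.card (H i) := by
  have e : (AddSubgroup.pi Set.univ H) ≃ (∀ i, H i) :=
    { toFun := fun x i => ⟨x.1 i, x.2 i (Set.mem_univ i)⟩
      invFun := fun y => ⟨fun i => (y i).1, fun i _ => (y i).2⟩
      left_inv := fun x => rfl
      right_inv := fun y => rfl }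
  rw [Nat.card_congr e, Nat.card_pi]

theorem conc_pi [∀ i, DecidableEq (Γ i)] (A : ∀ i, Finset (Γ i)) {L : ℝ} (hL : 1 ≤ L)
    (h : ∀ i, Conc (A i) L) : Conc (Fintype.piFinset A) ((2 * L) ^ k) := by
  classical
  choose r B θ H F h1 h2 h3 h4 h5 h6 using h
  have h2L : 1 ≤ 2 * L := by linarith
  refine ⟨∑ i, r i, prodBody r B, prodHom θ, AddSubgroup.pi Set.univ H, Fintype.piFinset F,
    ?_, prodBody_body h2, ?_, ?_, ?_, ?_⟩
  · push_cast
    calc ∑ i, (r i : ℝ) ≤ ∑ _i : Fin k, 500 * Real.log (2 * L) := sum_le_sum fun i _ => h1 i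
      _ = 500 * (k * Real.log (2 * L)) := by
        rw [sum_const, card_univ, Fintype.card_fin, nsmul_eq_mul]; ring
      _ = 500 * Real.log ((2 * L) ^ k) := by rw [Real.log_pow]
      _ ≤ 500 * Real.log (2 * (2 * L) ^ k) := by
        refine mul_le_mul_of_nonneg_left (Real.log_le_log (by positivity) ?_) (by norm_num)
        have : 0 < (2 * L) ^ k := by positivity
        linarith
  · have : ∀ i, Finite (H i) := h3
    have e : (AddSubgroup.pi Set.univ H) ≃ (∀ i, H i) :=
      { toFun := fun x i => ⟨x.1 i, x.2 i (Set.mem_univ i)⟩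
        invFun := fun y => ⟨fun i => (y i).1, fun i _ => (y i).2⟩
        left_inv := fun x => rfl
        right_inv := fun y => rfl }
    exact Finite.of_equiv _ e.symm
  · rw [card_pi_subgroup, Fintype.card_piFinset]
    calc (lat (prodBody r B)).ncard * ∏ i, Nat.card (H i)
        ≤ (∏ i, (lat (B i)).ncard) * ∏ i, Nat.card (H i) := Nat.mul_le_mul_right _ (lat_prodBody h2)
      _ = ∏ i, ((lat (B i)).ncard * Nat.card (H i)) := prod_mul_distrib.symm
      _ ≤ ∏ i, (A i).card := prod_le_prod' fun i _ => h4 i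
  · rw [Fintype.card_piFinset]
    push_cast
    have h7 : (5000 : ℝ) * L ^ 5000 ≤ (2 * L) ^ 5000 := by
      rw [mul_pow]
      refine mul_le_mul_of_nonneg_right ?_ (by positivity)
      calc (5000 : ℝ) ≤ 2 ^ 13 := by norm_num
        _ ≤ 2 ^ 5000 := pow_le_pow_right₀ (by norm_num) (by norm_num)
    calc ∏ i, ((F i).card : ℝ) ≤ ∏ _i : Fin k, (2 * L) ^ 5000 :=
          prod_le_prod (fun i _ => Nat.cast_nonneg _) fun i _ => (h5 i).trans h7
      _ = ((2 * L) ^ 5000) ^ k := by rw [prod_const, card_univ, Fintype.card_fin]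
      _ = ((2 * L) ^ k) ^ 5000 := by rw [← pow_mul, ← pow_mul, mul_comm 5000 k]
      _ ≤ 5000 * ((2 * L) ^ k) ^ 5000 := by
        have : 0 ≤ ((2 * L) ^ k) ^ 5000 := by positivity
        linarith
  · intro a ha
    rw [Fintype.mem_piFinset] at ha
    choose t ht x hx c hc e using fun i => h6 i (a i) (ha i)
    refine ⟨t, ?_, glue r x, ?_, c, ?_, ?_⟩
    · rw [Fintype.mem_piFinset]
      exact ht
    · intro i
      have h7 : part r i (re (glue r x)) = re (part r i (glue r x)) := rfl
      rw [h7, part_glue]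
      exact hx i
    · exact fun i _ => hc i
    · funext i
      show a i = t i + θ i (part r i (glue r x)) + c i
      rw [part_glue]
      exact e i

theorem pi_doubling [∀ i, DecidableEq (Γ i)] (A : ∀ i, Finset (Γ i)) {K : ℝ}
    (hK : ∀ i, ((A i + A i).card : ℝ) ≤ K * (A i).card) :
    (((Fintype.piFinset A) + (Fintype.piFinset A)).card : ℝ) ≤ K ^ k * (Fintype.piFinset A).card := by
  classical
  have h1 : (Fintype.piFinset A) + (Fintype.piFinset A) ⊆ Fintype.piFinset fun i => A i + A i := by
    intro z hz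
    obtain ⟨x, hx, y, hy, rfl⟩ := mem_add.1 hz
    rw [Fintype.mem_piFinset] at hx hy ⊢
    exact fun i => add_mem_add (hx i) (hy i)
  have h2 : (((Fintype.piFinset A) + (Fintype.piFinset A)).card : ℝ) ≤ ∏ i, ((A i + A i).card : ℝ) := by
    have := card_le_card h1
    rw [Fintype.card_piFinset] at this
    exact_mod_cast this
  rw [Fintype.card_piFinset]
  push_cast
  calc (((Fintype.piFinset A) + (Fintype.piFinset A)).card : ℝ) ≤ ∏ i, ((A i + A i).card : ℝ) := h2
    _ ≤ ∏ i, (K * (A i).card) := prod_le_prod (fun i _ => Nat.cast_nonneg _) fun i _ => hK i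
    _ = K ^ k * ∏ i, ((A i).card : ℝ) := by
      rw [prod_mul_distrib, prod_const, card_univ, Fintype.card_fin]

/-- **The sets that satisfy the conclusion of Q1 are closed under sums of homomorphic images.** -/
theorem conc_sums {Δ : Type v} [AddCommGroup Δ] [DecidableEq Δ] [∀ i, DecidableEq (Γ i)]
    (φ : ∀ i, Γ i →+ Δ) (A : ∀ i, Finset (Γ i)) (hA : ∀ i, (A i).Nonempty) {K L : ℝ} (hL : 1 ≤ L)
    (hK : ∀ i, ((A i + A i).card : ℝ) ≤ K * (A i).card) (h : ∀ i, Conc (A i) L) :
    Conc ((Fintype.piFinset A).image fun a => ∑ i, φ i (a i))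
      ((2 * (2 * L) ^ k) ^ 20150 * (K ^ k) ^ 6) := by
  classical
  let Φ : (∀ i, Γ i) →+ Δ :=
    { toFun := fun a => ∑ i, φ i (a i)
      map_zero' := sum_eq_zero fun i _ => map_zero (φ i)
      map_add' := fun a b => by
        rw [← sum_add_distrib]
        exact sum_congr rfl fun i _ => map_add (φ i) _ _ }
  have hne : (Fintype.piFinset A).Nonempty := Fintype.piFinset_nonempty.2 hA
  exact hom_stable Φ hne (pi_doubling A hK) (conc_pi A hL h)

end H104.MC
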