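import Pool.Agent.H104.MC.Img

/-!
# The number of elements of `ψ(S) + H`
-/

set_option autoImplicit false

namespace H104.MC

open Finset Pool.Agent.Y806.DF Q123.VP
open scoped Pointwise

variable {n : ℕ} {Γ : Type*} [AddCommGroup Γ]

/-- `|ψ(S) + H|` is `|H|` times the number of the classes modulo `H`. -/
theorem ncard_img (ψ : (Fin n → ℤ) →+ Γ) (H : AddSubgroup Γ) [Finite H] (S : Finset (Fin n → ℤ))
    [DecidableEq (Γ ⧸ H)] :
    (img ψ H (S : Set (Fin n → ℤ))).ncard =
      (S.image ((QuotientAddGroup.mk' H).comp ψ)).card * Nat.card H := by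
  classical
  set φ := (QuotientAddGroup.mk' H).comp ψ with hφ
  have hout : ∀ y : Γ ⧸ H, (QuotientAddGroup.mk' H) (Quotient.out y) = y := fun y =>
    QuotientAddGroup.out_eq' y
  have h1 : img ψ H (S : Set (Fin n → ℤ)) =
      (fun p : (Γ ⧸ H) × Γ => Quotient.out p.1 + p.2) ''
        (((S.image φ : Finset (Γ ⧸ H)) : Set (Γ ⧸ H)) ×ˢ (H : Set Γ)) := by
    ext g
    constructor
    · rintro ⟨x, hx, h, hh, rfl⟩
      refine ⟨(φ x, ψ x + h - Quotient.out (φ x)), ⟨?_, ?_⟩, ?_⟩
      · exact mem_coe.2 (mem_image_of_mem _ hx)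
      · show ψ x + h - Quotient.out (φ x) ∈ H
        rw [← QuotientAddGroup.eq_zero_iff]
        have h2 : (QuotientAddGroup.mk' H) (ψ x + h - Quotient.out (φ x)) = 0 := by
          rw [map_sub, map_add, hout]
          have h3 : (QuotientAddGroup.mk' H) h = 0 := (QuotientAddGroup.eq_zero_iff h).2 hh
          rw [h3, add_zero]
          exact sub_self _
        exact h2
      · show Quotient.out (φ x) + (ψ x + h - Quotient.out (φ x)) = ψ x + h
        abel
    · rintro ⟨⟨y, h⟩, ⟨hy, hh⟩, rfl⟩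
      obtain ⟨x, hx, hxy⟩ := mem_image.1 (mem_coe.1 hy)
      have h2 : Quotient.out y - ψ x ∈ H := by
        rw [← QuotientAddGroup.eq_zero_iff]
        have h3 : (QuotientAddGroup.mk' H) (Quotient.out y - ψ x) = 0 := by
          rw [map_sub, hout, sub_eq_zero]
          exact hxy.symm
        exact h3
      refine ⟨x, hx, (Quotient.out y - ψ x) + h, H.add_mem h2 hh, ?_⟩
      show Quotient.out y + h = ψ x + ((Quotient.out y - ψ x) + h)
      abel
  rw [h1, Set.ncard_image_of_injOn, Set.ncard_prod, Set.ncard_coe_finset]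
  · rfl
  · rintro ⟨y, h⟩ ⟨-, hh⟩ ⟨y', h'⟩ ⟨-, hh'⟩ heq
    simp only at heq
    have e1 : (QuotientAddGroup.mk' H) h = 0 := (QuotientAddGroup.eq_zero_iff h).2 hh
    have e2 : (QuotientAddGroup.mk' H) h' = 0 := (QuotientAddGroup.eq_zero_iff h').2 hh'
    have h2 := congrArg (QuotientAddGroup.mk' H) heq
    rw [map_add, map_add, hout, hout, e1, e2, add_zero, add_zero] at h2
    subst h2
    rw [add_right_inj] at heq
    rw [heq]

/-- Differences: `|ψ(X - X) + H| ≤ K ^ 3 |ψ(X) + H|`. -/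
theorem ncard_img_sub (ψ : (Fin n → ℤ) →+ Γ) (H : AddSubgroup Γ) [Finite H]
    {X : Finset (Fin n → ℤ)} (hX : X.Nonempty) {K : ℝ} (hK : ((X + X).card : ℝ) ≤ K * X.card) :
    ((img ψ H ((X - X : Finset (Fin n → ℤ)) : Set (Fin n → ℤ))).ncard : ℝ) ≤
      K ^ 3 * (img ψ H (X : Set (Fin n → ℤ))).ncard := by
  classical
  rw [ncard_img, ncard_img]
  have h := (card_image_add ((QuotientAddGroup.mk' H).comp ψ) hX hK).2
  push_cast
  calc (((X - X).image ((QuotientAddGroup.mk' H).comp ψ)).card : ℝ) * Nat.card H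
      ≤ (K ^ 3 * ((X.image ((QuotientAddGroup.mk' H).comp ψ)).card : ℝ)) * Nat.card H :=
        mul_le_mul_of_nonneg_right h (Nat.cast_nonneg _)
    _ = _ := by ring

theorem finite_subgroup_eq_zero {d : ℕ} (H : AddSubgroup (Fin d → ℤ)) [Finite H] {x : Fin d → ℤ}
    (hx : x ∈ H) : x = 0 := by
  have h1 : IsOfFinAddOrder (⟨x, hx⟩ : H) := isOfFinAddOrder_of_finite _
  obtain ⟨m, hm, h2⟩ := isOfFinAddOrder_iff_nsmul_eq_zero.1 h1
  have h3 : m • x = 0 := congrArg Subtype.val h2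
  funext i
  have h4 := congrFun h3 i
  rw [Pi.smul_apply, Pi.zero_apply, smul_eq_zero] at h4
  rcases h4 with h4 | h4
  · omega
  · exact h4

end H104.MC
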